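import Mathlib
import Pool.Agent.TH54.BU.Inf

/-!
# Free Burnside monoids `x = x ^ (1 + p)` with an infinite kernel group (helper89)

Let `Q` be the quotient of the free monoid on `a, b` by the congruence generated by all the pairs
`(x, x ^ (1 + p))`. The element `e = (a b) ^ p` lies in every ideal of `Q`, hence `e Q e` is a group
of exponent `p` with the identity `e`. It maps onto the free Burnside group of rank two and exponent
`p`. If the class of `e` is regular, then `e Q e` is finite.
-/

set_option autoImplicit false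

namespace Pool.Agent.P8H89.BurnMon

open Pool.Agent.TH54.BU

/-- every ideal of the monoid contains `e`, one step -/
theorem ideal_step {Q : Type*} [Monoid Q] {p : ℕ} (hp : 1 ≤ p) (hQ : ∀ x : Q, x ^ (p + 1) = x)
    {e f c : Q} (he : e * e = e) (hf : ∃ u v, e = u * f * v) (hc : ∃ s t, e = s * c * t) :
    ∃ u v, e = u * (f * c) * v := by
  obtain ⟨u, v, huv⟩ := hf
  obtain ⟨s, t, hst⟩ := hc
  obtain ⟨q, rfl⟩ : ∃ q, p = q + 1 := ⟨p - 1, by omega⟩
  set z := c * t * u * f with hz
  have h1 : e = s * z * v := by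
    calc e = e * e := he.symm
      _ = (s * c * t) * (u * f * v) := by rw [← hst, ← huv]
      _ = s * z * v := by rw [hz]; simp only [mul_assoc]
  have h2' : ∀ y : Q, y = y * y * y ^ q := by
    intro y
    calc y = y ^ (q + 1 + 1) := (hQ y).symm
      _ = y * y * y ^ q := by rw [pow_succ', pow_succ', mul_assoc]
  have h2 : z = z * z * z ^ q := h2' z
  refine ⟨s * c * t * u, t * u * f * z ^ q * v, ?_⟩
  calc e = s * z * v := h1
    _ = s * (z * z * z ^ q) * v := by rw [← h2]
    _ = _ := by
      have : z * z = c * t * u * f * (c * t * u * f) := by rw [hz]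
      rw [this]
      simp only [mul_assoc]

/-- if `e` is an idempotent which lies in every ideal, then `e Q e` has exponent `p` -/
theorem pow_eq_e {Q : Type*} [Monoid Q] {p : ℕ} (hp : 1 ≤ p) (hQ : ∀ x : Q, x ^ (p + 1) = x)
    {e : Q} (he : e * e = e) (hid : ∀ f : Q, ∃ u v, e = u * f * v) (x : Q) :
    (e * x * e) ^ p = e := by
  obtain ⟨q, rfl⟩ : ∃ q, p = q + 1 := ⟨p - 1, by omega⟩
  have idem : ∀ y : Q, y ^ (q + 1) * y ^ (q + 1) = y ^ (q + 1) := by
    intro y
    calc y ^ (q + 1) * y ^ (q + 1) = y ^ (q + 1 + 1) * y ^ q := by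
          rw [← pow_add, ← pow_add]; congr 1; omega
      _ = y * y ^ q := by rw [hQ]
      _ = y ^ (q + 1) := (pow_succ' y q).symm
  set y := e * x * e with hy
  have hey : e * y = y := by rw [hy, ← mul_assoc, ← mul_assoc, he]
  have hye : y * e = y := by rw [hy, mul_assoc, he]
  set f := y ^ (q + 1) with hf
  have hff : f * f = f := idem y
  have hef : e * f = f := by rw [hf, pow_succ', ← mul_assoc, hey]
  have hfe : f * e = f := by rw [hf, pow_succ, mul_assoc, hye]
  obtain ⟨u, v, huv⟩ := hid f
  set s := e * u * f with hs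
  set t := f * v * e with ht
  have hst : e = s * t := by
    calc e = e * e * e := by rw [he, he]
      _ = e * (u * f * v) * e := by rw [← huv]
      _ = e * (u * (f * f) * v) * e := by rw [hff]
      _ = s * t := by rw [hs, ht]; simp only [mul_assoc]
  set s0 := s ^ (q + 1) with hs0
  have h1 : s0 * s = s := by rw [hs0, ← pow_succ]; exact hQ s
  have h2 : s0 * e = e := by
    calc s0 * e = s0 * (s * t) := by rw [← hst]
      _ = s0 * s * t := (mul_assoc _ _ _).symm
      _ = s * t := by rw [h1]
      _ = e := hst.symm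
  have hsf : s * f = s := by rw [hs, mul_assoc, hff]
  have h3 : s0 * f = s0 := by rw [hs0, pow_succ, mul_assoc, hsf]
  have h4 : s0 = e := by
    calc s0 = s0 * f := h3.symm
      _ = s0 * (f * e) := by rw [hfe]
      _ = s0 * f * e := by rw [mul_assoc]
      _ = s0 * e := by rw [h3]
      _ = e := h2
  rw [h4] at h3
  rw [← hef, h3]

/-- the defining relation -/
def rel (p : ℕ) : FreeMonoid (Fin 2) → FreeMonoid (Fin 2) → Prop :=
  fun a b => ∃ x : FreeMonoid (Fin 2), a = x ^ 1 ∧ b = x ^ (1 + p)

/-- the map to the free Burnside group -/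
noncomputable def toB (p : ℕ) :
    FreeMonoid (Fin 2) →* FreeGroup (Fin 2) ⧸ powSub (FreeGroup (Fin 2)) p :=
  FreeMonoid.lift fun i => (FreeGroup.of i : FreeGroup (Fin 2) ⧸ powSub (FreeGroup (Fin 2)) p)

theorem pow_B (p : ℕ) (g : FreeGroup (Fin 2) ⧸ powSub (FreeGroup (Fin 2)) p) : g ^ p = 1 := by
  obtain ⟨h, rfl⟩ := QuotientGroup.mk_surjective g
  rw [← QuotientGroup.mk_pow, QuotientGroup.eq_one_iff]
  exact Subgroup.subset_normalClosure ⟨h, rfl⟩

theorem toB_surjective {p : ℕ} (hp : 1 ≤ p) : Function.Surjective (toB p) := by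
  obtain ⟨q, rfl⟩ : ∃ q, p = q + 1 := ⟨p - 1, by omega⟩
  intro g
  obtain ⟨h, rfl⟩ := QuotientGroup.mk_surjective g
  induction h using FreeGroup.induction_on with
  | C1 => exact ⟨1, by rw [map_one]; rfl⟩
  | of i => exact ⟨FreeMonoid.of i, by rw [toB, FreeMonoid.lift_eval_of]⟩
  | inv_of i _ =>
    refine ⟨FreeMonoid.of i ^ q, ?_⟩
    rw [map_pow, toB, FreeMonoid.lift_eval_of]
    have h1 := pow_B (q + 1)
      (FreeGroup.of i : FreeGroup (Fin 2) ⧸ powSub (FreeGroup (Fin 2)) (q + 1))
    rw [pow_succ] at h1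
    exact eq_inv_of_mul_eq_one_left h1
  | mul x y hx hy =>
    obtain ⟨u, hu⟩ := hx
    obtain ⟨v, hv⟩ := hy
    exact ⟨u * v, by rw [map_mul, hu, hv]; rfl⟩

/-- If all the classes of the congruence `x = x ^ (1 + p)` on two letters are regular, then the free
Burnside group of rank two and exponent `p` is finite. -/
theorem finite_of_regular {p : ℕ} (hp : 1 ≤ p)
    (H : ∀ w : FreeMonoid (Fin 2), ∃ (σ : Type) (_ : Fintype σ) (M : DFA (Fin 2) σ),
      M.accepts = {v : List (Fin 2) | conGen (rel p) (FreeMonoid.ofList v) w}) :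
    Finite (FreeGroup (Fin 2) ⧸ powSub (FreeGroup (Fin 2)) p) := by
  set c := conGen (rel p) with hc
  have hQ : ∀ x : c.Quotient, x ^ (p + 1) = x := by
    intro x
    obtain ⟨w, rfl⟩ := Con.mk'_surjective x
    rw [← map_pow]
    refine (Con.eq c).2 ?_
    have h := ConGen.Rel.of (r := rel p) (w ^ 1) (w ^ (1 + p)) ⟨w, rfl, rfl⟩
    rw [pow_one, add_comm] at h
    exact ConGen.Rel.symm h
  -- the map to the Burnside group
  have hker : c ≤ Con.ker (toB p) := by
    rw [hc, Con.conGen_le]
    rintro _ _ ⟨x, rfl, rfl⟩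
    rw [Con.ker_rel, map_pow, pow_add, pow_B, mul_one, pow_one]
  let θ : c.Quotient →* FreeGroup (Fin 2) ⧸ powSub (FreeGroup (Fin 2)) p :=
    Con.lift c (toB p) hker
  have hθ : ∀ w, θ (c.mk' w) = toB p w := fun w => Con.lift_mk' hker w
  obtain ⟨q, hq⟩ : ∃ q, p = q + 1 := ⟨p - 1, by omega⟩
  set a : c.Quotient := c.mk' (FreeMonoid.of 0) with ha
  set b : c.Quotient := c.mk' (FreeMonoid.of 1) with hb
  set e : c.Quotient := (a * b) ^ p with he
  have hee : e * e = e := by
    calc e * e = (a * b) ^ (p + 1) * (a * b) ^ q := by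
          rw [he, ← pow_add, ← pow_add]; congr 1; omega
      _ = (a * b) * (a * b) ^ q := by rw [hQ]
      _ = e := by rw [he, hq, pow_succ']
  have hlet : ∀ i : Fin 2, ∃ s t, e = s * c.mk' (FreeMonoid.of i) * t := by
    intro i
    have h0 : e = (a * b) * (a * b) ^ q := by rw [he, hq, pow_succ']
    fin_cases i
    · exact ⟨1, b * (a * b) ^ q, by rw [h0, one_mul, mul_assoc]; rfl⟩
    · exact ⟨a, (a * b) ^ q, h0⟩
  have hid : ∀ f : c.Quotient, ∃ u v, e = u * f * v := by
    intro f
    obtain ⟨w, rfl⟩ := Con.mk'_surjective f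
    obtain ⟨l, rfl⟩ := FreeMonoid.ofList.surjective w
    induction l using List.reverseRecOn with
    | nil => exact ⟨e, 1, by
        have : c.mk' (FreeMonoid.ofList []) = 1 := map_one c.mk'
        rw [this, mul_one, mul_one]⟩
    | append_singleton l i ih =>
      have h1 : c.mk' (FreeMonoid.ofList (l ++ [i])) =
          c.mk' (FreeMonoid.ofList l) * c.mk' (FreeMonoid.of i) := by
        rw [← map_mul]; rfl
      rw [h1]
      exact ideal_step hp hQ hee ih (hlet i)
  have hpow := pow_eq_e hp hQ hee hid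
  -- the automaton
  obtain ⟨we, hwe⟩ := Con.mk'_surjective e
  obtain ⟨σ, hσ, M, hM⟩ := H we
  have hacc : ∀ v : List (Fin 2), v ∈ M.accepts ↔ c.mk' (FreeMonoid.ofList v) = e := by
    intro v
    rw [hM, ← hwe]
    exact (Con.eq c).symm
  -- representatives
  choose rep hrep using fun x : c.Quotient => Con.mk'_surjective x
  let S : Set c.Quotient := Set.range fun x : c.Quotient => e * x * e
  have hinj : Set.InjOn (fun y : c.Quotient => M.eval (FreeMonoid.toList (rep y))) S := by
    rintro _ ⟨x, rfl⟩ _ ⟨x', rfl⟩ hxx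
    simp only at hxx
    set y := e * x * e with hy
    set y' := e * x' * e with hy'
    have hey : e * y = y := by rw [hy, ← mul_assoc, ← mul_assoc, hee]
    have hye' : y' * e = y' := by rw [hy', mul_assoc, hee]
    have h1 : FreeMonoid.toList (rep y) ++ FreeMonoid.toList (rep (y ^ q)) ∈ M.accepts := by
      rw [hacc]
      have : FreeMonoid.ofList (FreeMonoid.toList (rep y) ++ FreeMonoid.toList (rep (y ^ q))) =
        rep y * rep (y ^ q) := rfl
      rw [this, map_mul, hrep, hrep, ← pow_succ', ← hq]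
      exact hpow x
    have h2 : FreeMonoid.toList (rep y') ++ FreeMonoid.toList (rep (y ^ q)) ∈ M.accepts := by
      rw [DFA.mem_accepts, DFA.eval, DFA.evalFrom_of_append] at h1 ⊢
      have h3 : M.evalFrom M.start (FreeMonoid.toList (rep y)) =
        M.evalFrom M.start (FreeMonoid.toList (rep y')) := hxx
      rwa [← h3]
    rw [hacc] at h2
    have h4 : FreeMonoid.ofList (FreeMonoid.toList (rep y') ++ FreeMonoid.toList (rep (y ^ q))) =
        rep y' * rep (y ^ q) := rfl
    rw [h4, map_mul, hrep, hrep] at h2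
    have h5 : y ^ p = e := hpow x
    calc y = e * y := hey.symm
      _ = y' * y ^ q * y := by rw [h2]
      _ = y' * y ^ p := by rw [mul_assoc, ← pow_succ, ← hq]
      _ = y' := by rw [h5, hye']
  have hSfin : S.Finite := by
    refine Set.Finite.of_finite_image ?_ hinj
    exact Set.toFinite _
  have hθe : θ e = 1 := by
    rw [he, map_pow]
    exact pow_B p _
  have himg : θ '' S = Set.univ := by
    rw [Set.eq_univ_iff_forall]
    intro g
    obtain ⟨w, hw⟩ := toB_surjective hp g
    refine ⟨e * c.mk' w * e, ⟨_, rfl⟩, ?_⟩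
    rw [map_mul, map_mul, hθe, hθ, hw, one_mul, mul_one]
  have := hSfin.image θ
  rw [himg] at this
  exact Set.finite_univ_iff.1 this

end Pool.Agent.P8H89.BurnMon
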