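import Mathlib
import Pool.Agent.H561R3.Om.Defs
import Pool.Agent.H561R3.Om.Strat
import Pool.Agent.H561R3.Om.Meas

set_option autoImplicit false

/-! Invariants of the strategy of `Pool.Agent.H561R3.Om.Strat`. -/

namespace Pool.Agent.P8H89.Om

open Classical
open Pool.Agent.H561R3.Om

section state

variable (qU : Str × Str → ℕ → Prop) (qW : Str → ℕ → Prop) (qV : ℕ × IC → ℕ → Prop) (κ : Str)

/-- target of level `l` in units of `2 ^ (-s)` -/
noncomputable def e (l s : ℕ) : ℕ := gE (ST qU qW qV κ s) l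
/-- starting stage of level `l` -/
noncomputable def g (l s : ℕ) : ℕ := gS (ST qU qW qV κ s) l
/-- the acting level -/
noncomputable def lv (s : ℕ) : ℕ := lev (ST qU qW qV κ s)
/-- the amount -/
noncomputable def am (s : ℕ) : ℕ := amt qU qW qV κ s (ST qU qW qV κ s)

theorem ST_succ (s : ℕ) : ST qU qW qV κ (s + 1) = stepL qU qW qV κ s (ST qU qW qV κ s) := rfl

theorem length_ST (s : ℕ) : (ST qU qW qV κ s).length = TT κ + 1 := by
  induction s with
  | zero => simp [Pool.Agent.H561R3.Om.ST, ini]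
  | succ s ih => rw [ST_succ]; unfold stepL; simp [ih]

theorem e_zero (l : ℕ) (hl : l ≤ TT κ) : e qU qW qV κ l 0 = if l = TT κ then 1 else 0 := by
  unfold e gE
  show ((ini κ).getD l (0, 0)).1 = _
  unfold ini
  rw [List.getD_eq_getElem _ _ (by simp; omega)]
  simp

theorem g_zero (l : ℕ) : g qU qW qV κ l 0 = 0 := by
  unfold g gS
  show ((ini κ).getD l (0, 0)).2 = _
  unfold ini
  by_cases hl : l < TT κ + 1
  · rw [List.getD_eq_getElem _ _ (by simpa using hl)]
    simp
  · rw [List.getD_eq_default _ _ (by simp; omega)]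

theorem e_succ (l s : ℕ) (hl : l ≤ TT κ) : e qU qW qV κ l (s + 1) =
    if am qU qW qV κ s = 0 then 2 * e qU qW qV κ l s
    else if l + 1 = lv qU qW qV κ s then 2 * (e qU qW qV κ 0 s + am qU qW qV κ s)
    else 2 * e qU qW qV κ l s := by
  unfold e am lv
  rw [ST_succ]
  have hlen := length_ST qU qW qV κ s
  conv_lhs => unfold gE stepL
  rw [List.getD_eq_getElem _ _ (by simp [hlen]; omega)]
  simp only [List.getElem_map, List.getElem_range]
  split_ifs <;> rfl

theorem g_succ (l s : ℕ) (hl : l ≤ TT κ) : g qU qW qV κ l (s + 1) =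
    if am qU qW qV κ s = 0 then g qU qW qV κ l s
    else if l < lv qU qW qV κ s then s else g qU qW qV κ l s := by
  unfold g am lv
  rw [ST_succ]
  have hlen := length_ST qU qW qV κ s
  conv_lhs => unfold gS stepL
  rw [List.getD_eq_getElem _ _ (by simp [hlen]; omega)]
  simp only [List.getElem_map, List.getElem_range]
  split_ifs <;> rfl

theorem lv_spec_lt (l s : ℕ) (hl : l < lv qU qW qV κ s) :
    e qU qW qV κ l s ≤ e qU qW qV κ 0 s := by
  unfold lv lev at hl
  have hlen : l < (ST qU qW qV κ s).length :=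
    lt_of_lt_of_le hl List.findIdx_le_length
  have h := List.not_of_lt_findIdx hl
  unfold e
  have h1 : gE (ST qU qW qV κ s) l = ((ST qU qW qV κ s)[l]).1 := by
    unfold gE
    rw [List.getD_eq_getElem _ _ hlen]
  rw [h1]
  simpa using h

theorem lv_spec (s : ℕ) (hl : lv qU qW qV κ s ≤ TT κ) :
    e qU qW qV κ 0 s < e qU qW qV κ (lv qU qW qV κ s) s := by
  have hlen : lv qU qW qV κ s < (ST qU qW qV κ s).length := by
    rw [length_ST]; omega
  have h := List.findIdx_getElem (w := hlen)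
  have h1 : e qU qW qV κ (lv qU qW qV κ s) s = ((ST qU qW qV κ s)[lv qU qW qV κ s]).1 := by
    unfold e
    conv_lhs => unfold gE
    rw [List.getD_eq_getElem _ _ hlen]
  rw [h1]
  exact of_decide_eq_true h

theorem lv_le (s : ℕ) : lv qU qW qV κ s ≤ TT κ + 1 := by
  have := length_ST qU qW qV κ s
  unfold lv lev
  rw [← this]
  exact List.findIdx_le_length

theorem lv_pos (s : ℕ) : 0 < lv qU qW qV κ s := by
  by_contra h
  have h0 : lv qU qW qV κ s = 0 := by omega
  have := lv_spec qU qW qV κ s (by omega)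
  rw [h0] at this
  omega

theorem e_top (s l : ℕ) (hl : TT κ < l) : e qU qW qV κ l s = 0 := by
  unfold e gE
  rw [List.getD_eq_default _ _ (by rw [length_ST]; omega)]

theorem am_le (s : ℕ) : am qU qW qV κ s ≤ e qU qW qV κ (lv qU qW qV κ s) s - e qU qW qV κ 0 s := by
  unfold am amt
  exact Nat.findGreatest_le _

theorem am_act (s : ℕ) (h : am qU qW qV κ s ≠ 0) :
    Act qU qW qV κ s (e qU qW qV κ 0 s) (g qU qW qV κ (lv qU qW qV κ s) s + kk κ)
      (am qU qW qV κ s) := by
  unfold am amt at h ⊢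
  exact Nat.findGreatest_of_ne_zero (n := gE (ST qU qW qV κ s) (lev (ST qU qW qV κ s)) - gE (ST qU qW qV κ s) 0)
    (P := fun r => Act qU qW qV κ s (gE (ST qU qW qV κ s) 0)
      (gS (ST qU qW qV κ s) (lev (ST qU qW qV κ s)) + kk κ) r) rfl h

theorem le_am (s r : ℕ) (hr : r ≤ e qU qW qV κ (lv qU qW qV κ s) s - e qU qW qV κ 0 s)
    (h : Act qU qW qV κ s (e qU qW qV κ 0 s) (g qU qW qV κ (lv qU qW qV κ s) s + kk κ) r) :
    r ≤ am qU qW qV κ s := by
  unfold am amt
  exact Nat.le_findGreatest hr h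

theorem am_lv (s : ℕ) (h : am qU qW qV κ s ≠ 0) : lv qU qW qV κ s ≤ TT κ := by
  by_contra h1
  have h2 := am_le qU qW qV κ s
  rw [e_top qU qW qV κ s _ (by omega)] at h2
  omega

theorem e_mono_l (s : ℕ) : ∀ l, l + 1 ≤ TT κ → e qU qW qV κ l s ≤ e qU qW qV κ (l + 1) s := by
  induction s with
  | zero =>
    intro l hl
    rw [e_zero _ _ _ _ _ (by omega), if_neg (by omega)]
    exact Nat.zero_le _
  | succ s ih =>
    intro l hl
    rw [e_succ _ _ _ _ _ _ (by omega), e_succ _ _ _ _ _ _ hl]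
    by_cases h0 : am qU qW qV κ s = 0
    · rw [if_pos h0, if_pos h0]
      have := ih l hl
      omega
    · rw [if_neg h0, if_neg h0]
      have hle := am_le qU qW qV κ s
      by_cases h1 : l + 1 = lv qU qW qV κ s
      · rw [if_pos h1, if_neg (by omega), h1]
        have := am_lv qU qW qV κ s h0
        omega
      · rw [if_neg h1]
        by_cases h2 : l + 1 + 1 = lv qU qW qV κ s
        · rw [if_pos h2]
          have := lv_spec_lt qU qW qV κ l s (by omega)
          omega
        · rw [if_neg h2]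
          have := ih l hl
          omega

theorem e_mono_le (s l m : ℕ) (hlm : l ≤ m) (hm : m ≤ TT κ) :
    e qU qW qV κ l s ≤ e qU qW qV κ m s := by
  induction m, hlm using Nat.le_induction with
  | base => exact le_rfl
  | succ m h ih => exact (ih (by omega)).trans (e_mono_l qU qW qV κ s m hm)

theorem lv_eq (l s : ℕ) (hl : l < lv qU qW qV κ s) (hl' : l ≤ TT κ) :
    e qU qW qV κ l s = e qU qW qV κ 0 s :=
  le_antisymm (lv_spec_lt qU qW qV κ l s hl) (e_mono_le qU qW qV κ s 0 l (Nat.zero_le _) hl')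

theorem e_TT (s : ℕ) : e qU qW qV κ (TT κ) s = 2 ^ s := by
  induction s with
  | zero => rw [e_zero _ _ _ _ _ le_rfl, if_pos rfl, pow_zero]
  | succ s ih =>
    rw [e_succ _ _ _ _ _ _ le_rfl]
    by_cases h0 : am qU qW qV κ s = 0
    · rw [if_pos h0, ih, pow_succ]; ring
    · rw [if_neg h0, if_neg (by have := am_lv qU qW qV κ s h0; omega), ih, pow_succ]; ring

theorem e_le_pow (l s : ℕ) (hl : l ≤ TT κ) : e qU qW qV κ l s ≤ 2 ^ s := by
  rw [← e_TT qU qW qV κ s]
  exact e_mono_le qU qW qV κ s l _ hl le_rfl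

/-- targets never decrease -/
theorem e_step (l s : ℕ) (hl : l ≤ TT κ) : 2 * e qU qW qV κ l s ≤ e qU qW qV κ l (s + 1) := by
  rw [e_succ _ _ _ _ _ _ hl]
  split_ifs with h0 h1
  · exact le_rfl
  · have := lv_eq qU qW qV κ l s (by omega) hl
    omega
  · exact le_rfl

theorem two_dvd_e (l s : ℕ) (hl : l ≤ TT κ) : 2 ∣ e qU qW qV κ l (s + 1) := by
  rw [e_succ _ _ _ _ _ _ hl]
  split_ifs <;> exact ⟨_, rfl⟩

theorem g_le (l s : ℕ) (hl : l ≤ TT κ) : g qU qW qV κ l s ≤ s := by
  induction s with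
  | zero => rw [g_zero]
  | succ s ih =>
    rw [g_succ _ _ _ _ _ _ hl]
    split_ifs <;> omega

theorem g_step (l s : ℕ) (hl : l ≤ TT κ) : g qU qW qV κ l s ≤ g qU qW qV κ l (s + 1) := by
  rw [g_succ _ _ _ _ _ _ hl]
  have := g_le qU qW qV κ l s hl
  split_ifs <;> omega

theorem g_mono_l (s : ℕ) : ∀ l, l + 1 ≤ TT κ → g qU qW qV κ (l + 1) s ≤ g qU qW qV κ l s := by
  induction s with
  | zero => intro l _; rw [g_zero, g_zero]
  | succ s ih =>
    intro l hl
    rw [g_succ _ _ _ _ _ _ hl, g_succ _ _ _ _ _ _ (by omega)]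
    have h1 := ih l hl
    have h2 := g_le qU qW qV κ (l + 1) s hl
    split_ifs <;> omega

/-- effective starting stage of level `l` -/
noncomputable def sh (l s : ℕ) : ℕ :=
  if e qU qW qV κ 0 s < e qU qW qV κ l s then g qU qW qV κ l s else s

theorem sh_le (l s : ℕ) (hl : l ≤ TT κ) : sh qU qW qV κ l s ≤ s := by
  unfold sh
  have := g_le qU qW qV κ l s hl
  split_ifs <;> omega

theorem sh_zero (s : ℕ) : sh qU qW qV κ 0 s = s := by
  unfold sh
  rw [if_neg (lt_irrefl _)]

theorem sh_zero_right (l : ℕ) : sh qU qW qV κ l 0 = 0 := by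
  unfold sh
  rw [g_zero]
  split_ifs <;> rfl

theorem sh_mono_l (l s : ℕ) (hl : l + 1 ≤ TT κ) :
    sh qU qW qV κ (l + 1) s ≤ sh qU qW qV κ l s := by
  have h1 := e_mono_l qU qW qV κ s l hl
  have h2 := g_mono_l qU qW qV κ s l hl
  have h3 := g_le qU qW qV κ (l + 1) s hl
  unfold sh
  split_ifs <;> omega

theorem sh_mono_le (s l m : ℕ) (hlm : l ≤ m) (hm : m ≤ TT κ) :
    sh qU qW qV κ m s ≤ sh qU qW qV κ l s := by
  induction m, hlm using Nat.le_induction with
  | base => exact le_rfl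
  | succ m h ih => exact (sh_mono_l qU qW qV κ m s hm).trans (ih (by omega))

theorem sh_step (l s : ℕ) (hl : l ≤ TT κ) : sh qU qW qV κ l s ≤ sh qU qW qV κ l (s + 1) := by
  have h1 := g_le qU qW qV κ l s hl
  have h2 := g_step qU qW qV κ l s hl
  by_cases ha : e qU qW qV κ 0 (s + 1) < e qU qW qV κ l (s + 1)
  · have h3 : sh qU qW qV κ l (s + 1) = g qU qW qV κ l (s + 1) := by unfold sh; rw [if_pos ha]
    rw [h3]
    by_cases hb : e qU qW qV κ 0 s < e qU qW qV κ l s
    · have h4 : sh qU qW qV κ l s = g qU qW qV κ l s := by unfold sh; rw [if_pos hb]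
      rw [h4]; exact h2
    · have h4 : sh qU qW qV κ l s = s := by unfold sh; rw [if_neg hb]
      rw [h4, g_succ _ _ _ _ _ _ hl]
      rw [e_succ _ _ _ _ _ _ hl, e_succ _ _ _ _ _ _ (Nat.zero_le _)] at ha
      by_cases h0 : am qU qW qV κ s = 0
      · rw [if_pos h0, if_pos h0] at ha
        omega
      · rw [if_neg h0, if_neg h0] at ha
        have h5 := am_lv qU qW qV κ s h0
        have h6 := lv_spec qU qW qV κ s h5
        rw [if_neg h0]
        by_cases h7 : l < lv qU qW qV κ s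
        · rw [if_pos h7]
        · exfalso
          have h8 := e_mono_le qU qW qV κ s _ l (not_lt.1 h7) hl
          omega
  · have h3 : sh qU qW qV κ l (s + 1) = s + 1 := by unfold sh; rw [if_neg ha]
    rw [h3]
    have := sh_le qU qW qV κ l s hl
    omega

/-- when a target changes -/
theorem e_change (i s : ℕ) (hi : i + 1 ≤ TT κ) (h : e qU qW qV κ i (s + 1) ≠ 2 * e qU qW qV κ i s) :
    am qU qW qV κ s ≠ 0 ∧ i + 1 = lv qU qW qV κ s ∧
      e qU qW qV κ i (s + 1) = 2 * (e qU qW qV κ 0 s + am qU qW qV κ s) ∧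
      e qU qW qV κ i s = e qU qW qV κ 0 s ∧
      sh qU qW qV κ i s = s ∧ sh qU qW qV κ (i + 1) s = g qU qW qV κ (i + 1) s := by
  rw [e_succ _ _ _ _ _ _ (by omega)] at h
  by_cases h0 : am qU qW qV κ s = 0
  · rw [if_pos h0] at h; exact absurd rfl h
  · rw [if_neg h0] at h
    by_cases h1 : i + 1 = lv qU qW qV κ s
    · have h2 := lv_eq qU qW qV κ i s (by omega) (by omega)
      refine ⟨h0, h1, ?_, h2, ?_, ?_⟩
      · rw [e_succ _ _ _ _ _ _ (by omega), if_neg h0, if_pos h1]
      · unfold sh; rw [if_neg (by omega)]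
      · unfold sh; rw [if_pos]
        have := lv_spec qU qW qV κ s (by omega)
        rwa [← h1] at this
    · rw [if_neg h1] at h; exact absurd rfl h

end state

end Pool.Agent.P8H89.Om
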