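import Mathlib
import Pool.Agent.P8H89.OmA

set_option autoImplicit false

/-! The potential of one level never decreases by more than the mass that dies. -/

namespace Pool.Agent.P8H89.Om

open Classical MeasureTheory
open Pool.Agent.H561R3.Om Pool.Agent.H561R3

theorem nodup_upTo (b : ℕ) : (upTo b).Nodup := by
  unfold upTo
  rw [List.nodup_flatMap]
  refine ⟨fun x _ => nodup_strs x, ?_⟩
  refine List.Pairwise.imp ?_ (List.nodup_range (n := b + 1))
  intro a b hab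
  simp only [Function.onFun, List.Disjoint, mem_strs]
  intro c h1 h2
  exact hab (h1.symm.trans h2)

section acc

variable (qU : Str × Str → ℕ → Prop) (qW : Str → ℕ → Prop) (qV : ℕ × IC → ℕ → Prop) (κ : Str)

variable {qU qW qV κ} in
theorem bornP_mono (hU : ∀ a m n, m ≤ n → qU a m → qU a n) {s t : ℕ} (h : s ≤ t) {p : Str}
    (hp : bornP qU κ s p) : bornP qU κ t p := by
  obtain ⟨h1, h2, x, h3, h4⟩ := hp
  exact ⟨h1.trans h, h2, x, cand_mono h h3, hU _ _ _ h h4⟩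

variable {qU qW qV κ} in
theorem goneP_mono (hU : ∀ a m n, m ≤ n → qU a m → qU a n)
    (hW : ∀ a m n, m ≤ n → qW a m → qW a n) {s t : ℕ} (h : s ≤ t) {p : Str}
    (hp : goneP qU qW κ s p) : goneP qU qW κ t p := by
  obtain ⟨h1, x, h3, h4, h5⟩ := hp
  exact ⟨bornP_mono hU h h1, x, cand_mono h h3, hU _ _ _ h h4, hW _ _ _ h h5⟩

/-- weight of a program -/
noncomputable def wt (p : Str) : ℝ := (1 / 2 : ℝ) ^ p.length

theorem wt_pos (p : Str) : 0 < wt p := by unfold wt; positivity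

/-- mass of the programs of `Λ` born by stage `u` and alive at stage `s` -/
noncomputable def mass (Λ : Finset Str) (u s : ℕ) : ℝ :=
  ∑ p ∈ Λ, if bornP qU κ u p ∧ ¬ goneP qU qW κ s p then wt p else 0

theorem nb_eq (Λ : Finset Str) (s : ℕ) (hΛ : ∀ p : Str, p.length ≤ s → p ∈ Λ) :
    (nb qU qW κ s : ℝ) / 2 ^ s = mass qU qW κ Λ s s := by
  unfold nb mass
  rw [← List.sum_toFinset _ (nodup_upTo s)]
  have hsub : (upTo s).toFinset ⊆ Λ := by
    intro p hp
    rw [List.mem_toFinset, mem_upTo] at hp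
    exact hΛ p hp
  rw [← Finset.sum_subset hsub]
  · push_cast
    rw [Finset.sum_div]
    refine Finset.sum_congr rfl fun p hp => ?_
    rw [List.mem_toFinset, mem_upTo] at hp
    split_ifs with h
    · unfold wt
      rw [pow_sub₀ _ (by norm_num) hp, one_div, inv_pow]
      field_simp
    · simp
  · intro p _ hp
    rw [if_neg]
    rintro ⟨⟨h1, _⟩, _⟩
    apply hp
    rw [List.mem_toFinset, mem_upTo]
    exact h1

/-- the target of level `i` as a real number -/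
noncomputable def E (i s : ℕ) : ℝ := (e qU qW qV κ i s : ℝ) / 2 ^ s

theorem E_step (i s : ℕ) (hi : i ≤ TT κ) : E qU qW qV κ i s ≤ E qU qW qV κ i (s + 1) := by
  unfold E
  have h := e_step qU qW qV κ i s hi
  have h' : ((2 * e qU qW qV κ i s : ℕ) : ℝ) ≤ (e qU qW qV κ i (s + 1) : ℕ) := by exact_mod_cast h
  push_cast at h'
  rw [pow_succ, div_le_div_iff₀ (by positivity) (by positivity)]
  have : (0 : ℝ) < 2 ^ s := by positivity
  nlinarith

theorem E_mono (i : ℕ) (hi : i ≤ TT κ) : Monotone (E qU qW qV κ i) :=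
  monotone_nat_of_le_succ fun s => E_step qU qW qV κ i s hi

theorem E_eq (i s : ℕ) (h : e qU qW qV κ i (s + 1) = 2 * e qU qW qV κ i s) :
    E qU qW qV κ i (s + 1) = E qU qW qV κ i s := by
  unfold E
  rw [h, pow_succ]
  push_cast
  field_simp

theorem E_nonneg (i s : ℕ) : 0 ≤ E qU qW qV κ i s := by unfold E; positivity

theorem E_le_one (i s : ℕ) (hi : i ≤ TT κ) : E qU qW qV κ i s ≤ 1 := by
  unfold E
  rw [div_le_one (by positivity)]
  exact_mod_cast e_le_pow qU qW qV κ i s hi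

theorem E_mono_l (s l m : ℕ) (hlm : l ≤ m) (hm : m ≤ TT κ) :
    E qU qW qV κ l s ≤ E qU qW qV κ m s := by
  unfold E
  have := e_mono_le qU qW qV κ s l m hlm hm
  gcongr

/-- the program dies in the step from `s` to `s + 1` -/
def dying (s : ℕ) (p : Str) : Prop := ¬ goneP qU qW κ s p ∧ goneP qU qW κ (s + 1) p

noncomputable def BB (Λ : Finset Str) (i s : ℕ) : ℝ :=
  (1 / 2 : ℝ) ^ κ.length * E qU qW qV κ i s + mass qU qW κ Λ (sh qU qW qV κ i s) s

noncomputable def dn (Λ : Finset Str) (i s : ℕ) : ℝ :=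
  ∑ p ∈ Λ, if dying qU qW κ s p ∧ bornP qU κ (sh qU qW qV κ i s) p ∧
    ¬ bornP qU κ (sh qU qW qV κ (i + 1) s) p then wt p else 0

noncomputable def dO (Λ : Finset Str) (i s : ℕ) : ℝ :=
  ∑ p ∈ Λ, if dying qU qW κ s p ∧ bornP qU κ (sh qU qW qV κ (i + 1) s) p then wt p else 0

theorem mass_step (hU : ∀ a m n, m ≤ n → qU a m → qU a n) (Λ : Finset Str) (i s : ℕ)
    (hi : i ≤ TT κ) :
    mass qU qW κ Λ (sh qU qW qV κ i s) s ≤ mass qU qW κ Λ (sh qU qW qV κ i (s + 1)) (s + 1) +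
      dn qU qW qV κ Λ i s + dO qU qW qV κ Λ i s := by
  unfold mass dn dO
  rw [← Finset.sum_add_distrib, ← Finset.sum_add_distrib]
  refine Finset.sum_le_sum fun p _ => ?_
  have hw := wt_pos p
  by_cases h1 : bornP qU κ (sh qU qW qV κ i s) p ∧ ¬ goneP qU qW κ s p
  · rw [if_pos h1]
    by_cases h2 : goneP qU qW κ (s + 1) p
    · by_cases h3 : bornP qU κ (sh qU qW qV κ (i + 1) s) p
      · rw [if_pos (show dying qU qW κ s p ∧ bornP qU κ (sh qU qW qV κ (i + 1) s) p from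
          ⟨⟨h1.2, h2⟩, h3⟩)]
        split_ifs <;> linarith
      · rw [if_pos (show dying qU qW κ s p ∧ bornP qU κ (sh qU qW qV κ i s) p ∧
          ¬ bornP qU κ (sh qU qW qV κ (i + 1) s) p from ⟨⟨h1.2, h2⟩, h1.1, h3⟩)]
        split_ifs <;> linarith
    · rw [if_pos (show bornP qU κ (sh qU qW qV κ i (s + 1)) p ∧ ¬ goneP qU qW κ (s + 1) p from
        ⟨bornP_mono hU (sh_step qU qW qV κ i s hi) h1.1, h2⟩)]
      split_ifs <;> linarith
  · rw [if_neg h1]
    split_ifs <;> linarith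

theorem dn_nonneg (Λ : Finset Str) (i s : ℕ) : 0 ≤ dn qU qW qV κ Λ i s :=
  Finset.sum_nonneg fun p _ => by have := wt_pos p; split_ifs <;> linarith

theorem dO_nonneg (Λ : Finset Str) (i s : ℕ) : 0 ≤ dO qU qW qV κ Λ i s :=
  Finset.sum_nonneg fun p _ => by have := wt_pos p; split_ifs <;> linarith

/-- an old program has a large weight -/
theorem dO_large (Λ : Finset Str) (i s : ℕ) (h : dO qU qW qV κ Λ i s ≠ 0) :
    (1 / 2 : ℝ) ^ (sh qU qW qV κ (i + 1) s) ≤ dO qU qW qV κ Λ i s := by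
  unfold dO at h ⊢
  obtain ⟨p, hp, hp'⟩ := Finset.exists_ne_zero_of_sum_ne_zero h
  have hc : dying qU qW κ s p ∧ bornP qU κ (sh qU qW qV κ (i + 1) s) p := by
    by_contra hc
    rw [if_neg hc] at hp'
    exact hp' rfl
  calc (1 / 2 : ℝ) ^ (sh qU qW qV κ (i + 1) s) ≤ wt p := by
        unfold wt
        exact pow_le_pow_of_le_one (by norm_num) (by norm_num) hc.2.1
    _ = if dying qU qW κ s p ∧ bornP qU κ (sh qU qW qV κ (i + 1) s) p then wt p else 0 := by
        rw [if_pos hc]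
    _ ≤ _ := Finset.single_le_sum (f := fun p => if dying qU qW κ s p ∧
        bornP qU κ (sh qU qW qV κ (i + 1) s) p then wt p else 0)
        (fun p _ => by have := wt_pos p; split_ifs <;> linarith) hp

variable (V : ℕ → Set IC)

noncomputable def JJ (Λ : Finset Str) (i s : ℕ) : ℝ :=
  vv V (sh qU qW qV κ (i + 1) s + kk κ) (BB qU qW qV κ Λ i s)
    - 2 * (1 / 2 : ℝ) ^ (sh qU qW qV κ (i + 1) s + kk κ) - (1 / 2 : ℝ) ^ κ.length * E qU qW qV κ i s

variable (hV : ∀ n, volume (openOf (V n)) ≤ ENNReal.ofReal ((1 / 2 : ℝ) ^ n))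
  (hqV : ∀ c t s, qV (c, t) s → t ∈ V c)

include hV hqV

theorem star (Λ : Finset Str) (i s : ℕ) (hi : i + 1 ≤ TT κ)
    (hΛ : ∀ p : Str, p.length ≤ s → p ∈ Λ) :
    vv V (sh qU qW qV κ (i + 1) s + kk κ) (BB qU qW qV κ Λ i s) +
      (1 / 2 : ℝ) ^ κ.length * (E qU qW qV κ i (s + 1) - E qU qW qV κ i s) ≤
    vv V (sh qU qW qV κ (i + 1) s + kk κ) (BB qU qW qV κ Λ i s +
      (1 / 2 : ℝ) ^ κ.length * (E qU qW qV κ i (s + 1) - E qU qW qV κ i s)) := by
  by_cases h : e qU qW qV κ i (s + 1) = 2 * e qU qW qV κ i s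
  · rw [E_eq qU qW qV κ i s h, sub_self, mul_zero, add_zero, add_zero]
  · obtain ⟨h0, h1, h2, h3, h4, h5⟩ := e_change qU qW qV κ i s hi h
    have hact := am_act qU qW qV κ s h0
    obtain ⟨t, ht, hq, hl, hr⟩ := hact
    rw [← h1] at hq
    rw [← h5] at hq
    have htV := hqV _ _ _ hq
    set A := am qU qW qV κ s with hA
    have hx : (1 / 2 : ℝ) ^ κ.length * (E qU qW qV κ i (s + 1) - E qU qW qV κ i s) =
        (A : ℝ) / 2 ^ (s + κ.length) := by
      unfold E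
      rw [h2, h3, pow_succ, pow_add, one_div, inv_pow]
      push_cast
      field_simp
      ring
    have hB : BB qU qW qV κ Λ i s =
        (NN qU qW κ s (e qU qW qV κ 0 s) : ℝ) / 2 ^ (s + κ.length) := by
      unfold BB NN
      rw [h4, ← nb_eq qU qW κ Λ s hΛ]
      unfold E
      rw [h3, pow_add, one_div, inv_pow]
      push_cast
      field_simp
      ring
    rw [hx]
    have hp : (0 : ℝ) < 2 ^ (s + κ.length) := by positivity
    refine vv_grow hV _ _ _ (by positivity) htV ?_ ?_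
    · rw [hB]
      unfold ratOf
      rw [div_lt_div_iff₀ (by positivity) hp]
      have : ((t.1.1 * 2 ^ (s + κ.length) : ℕ) : ℝ) <
        ((NN qU qW κ s (e qU qW qV κ 0 s) * (t.1.2.2 + 1) + t.1.2.1 * 2 ^ (s + κ.length) : ℕ) : ℝ) := by
        exact_mod_cast hl
      push_cast at this
      linarith
    · rw [hB, ← add_div]
      unfold ratOf
      rw [div_le_div_iff₀ hp (by positivity)]
      have : (((NN qU qW κ s (e qU qW qV κ 0 s) + A) * (t.2.2.2 + 1) +
        t.2.2.1 * 2 ^ (s + κ.length) : ℕ) : ℝ) ≤ ((t.2.1 * 2 ^ (s + κ.length) : ℕ) : ℝ) := by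
        exact_mod_cast hr
      push_cast at this
      linarith

theorem JJ_step (hU : ∀ a m n, m ≤ n → qU a m → qU a n)
    (Λ : Finset Str) (i s : ℕ) (hi : i + 1 ≤ TT κ)
    (hΛ : ∀ p : Str, p.length ≤ s → p ∈ Λ) :
    JJ qU qW qV κ V Λ i s ≤ JJ qU qW qV κ V Λ i (s + 1) + dn qU qW qV κ Λ i s +
      (1 / 2 : ℝ) ^ kk κ * dO qU qW qV κ Λ i s := by
  have hst := star qU qW qV κ V hV hqV Λ i s hi hΛ
  have hdn := dn_nonneg qU qW qV κ Λ i s
  have hdO := dO_nonneg qU qW qV κ Λ i s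
  have hms := mass_step qU qW qV κ hU Λ i s (by omega)
  have hle1 := vv_le hV (sh qU qW qV κ (i + 1) s + kk κ) (BB qU qW qV κ Λ i s +
      (1 / 2 : ℝ) ^ κ.length * (E qU qW qV κ i (s + 1) - E qU qW qV κ i s))
  have hk : (0 : ℝ) < (1 / 2 : ℝ) ^ kk κ := by positivity
  have hsh := sh_step qU qW qV κ (i + 1) s hi
  have hn := vv_nonneg hV (sh qU qW qV κ (i + 1) (s + 1) + kk κ) (BB qU qW qV κ Λ i (s + 1))
  rcases hsh.eq_or_lt with hc | hc
  · by_cases h0 : dO qU qW qV κ Λ i s = 0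
    · -- no old program dies
      have hB : BB qU qW qV κ Λ i s +
          (1 / 2 : ℝ) ^ κ.length * (E qU qW qV κ i (s + 1) - E qU qW qV κ i s) ≤
          BB qU qW qV κ Λ i (s + 1) + dn qU qW qV κ Λ i s := by
        unfold BB
        rw [h0] at hms
        linarith
      have h1 := vv_mono hV (sh qU qW qV κ (i + 1) s + kk κ) hB
      have h2 := vv_lip hV (sh qU qW qV κ (i + 1) s + kk κ) (BB qU qW qV κ Λ i (s + 1))
        (BB qU qW qV κ Λ i (s + 1) + dn qU qW qV κ Λ i s) (by linarith)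
      unfold JJ
      rw [← hc, h0]
      linarith
    · have h1 := dO_large qU qW qV κ Λ i s h0
      have h2 : (1 / 2 : ℝ) ^ (sh qU qW qV κ (i + 1) s + kk κ) ≤
          (1 / 2 : ℝ) ^ kk κ * dO qU qW qV κ Λ i s := by
        rw [pow_add, mul_comm]
        exact mul_le_mul_of_nonneg_left h1 hk.le
      unfold JJ
      rw [← hc] at hn ⊢
      linarith
  · have h1 : (1 / 2 : ℝ) ^ (sh qU qW qV κ (i + 1) (s + 1) + kk κ) ≤
        (1 / 2 : ℝ) ^ (sh qU qW qV κ (i + 1) s + kk κ + 1) :=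
      pow_le_pow_of_le_one (by norm_num) (by norm_num) (by omega)
    rw [pow_succ] at h1
    unfold JJ
    have h2 : 0 ≤ (1 / 2 : ℝ) ^ kk κ * dO qU qW qV κ Λ i s := by positivity
    linarith

theorem JJ_sum (hU : ∀ a m n, m ≤ n → qU a m → qU a n)
    (Λ : Finset Str) (i S : ℕ) (hi : i + 1 ≤ TT κ)
    (hΛ : ∀ p : Str, p.length ≤ S → p ∈ Λ) :
    ∀ s ≤ S, JJ qU qW qV κ V Λ i 0 ≤ JJ qU qW qV κ V Λ i s +
      ∑ j ∈ Finset.range s, (dn qU qW qV κ Λ i j + (1 / 2 : ℝ) ^ kk κ * dO qU qW qV κ Λ i j) := by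
  intro s hs
  induction s with
  | zero => simp
  | succ s ih =>
    have h1 := ih (by omega)
    have h2 := JJ_step qU qW qV κ V hV hqV hU Λ i s hi (fun p hp => hΛ p (by omega))
    rw [Finset.sum_range_succ]
    linarith

theorem level_gain (hU : ∀ a m n, m ≤ n → qU a m → qU a n)
    (Λ : Finset Str) (i S : ℕ) (hi : i + 1 ≤ TT κ)
    (hΛ : ∀ p : Str, p.length ≤ S → p ∈ Λ) :
    (1 / 2 : ℝ) ^ κ.length * E qU qW qV κ 0 S - 2 * (1 / 2 : ℝ) ^ kk κ ≤
      ∑ j ∈ Finset.range S, (dn qU qW qV κ Λ i j + (1 / 2 : ℝ) ^ kk κ * dO qU qW qV κ Λ i j) := by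
  have h1 := JJ_sum qU qW qV κ V hV hqV hU Λ i S hi hΛ S le_rfl
  have h2 : -(2 * (1 / 2 : ℝ) ^ kk κ) ≤ JJ qU qW qV κ V Λ i 0 := by
    unfold JJ
    have h3 := vv_nonneg hV (sh qU qW qV κ (i + 1) 0 + kk κ) (BB qU qW qV κ Λ i 0)
    have h4 : E qU qW qV κ i 0 = 0 := by
      unfold E
      rw [e_zero _ _ _ _ _ (by omega), if_neg (by omega)]
      simp
    rw [h4, sh_zero_right, Nat.zero_add] at *
    linarith
  have h5 : JJ qU qW qV κ V Λ i S ≤ - ((1 / 2 : ℝ) ^ κ.length * E qU qW qV κ 0 S) := by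
    unfold JJ
    have h3 := vv_le hV (sh qU qW qV κ (i + 1) S + kk κ) (BB qU qW qV κ Λ i S)
    have h4 : (0 : ℝ) < (1 / 2 : ℝ) ^ (sh qU qW qV κ (i + 1) S + kk κ) := by positivity
    have h6 := E_mono_l qU qW qV κ S 0 i (Nat.zero_le _) (by omega)
    have h7 : (1 / 2 : ℝ) ^ κ.length * E qU qW qV κ 0 S ≤ (1 / 2 : ℝ) ^ κ.length * E qU qW qV κ i S :=
      mul_le_mul_of_nonneg_left h6 (by positivity)
    linarith
  linarith

end acc

end Pool.Agent.P8H89.Om
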