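import Mathlib
import Pool.Agent.P8H89.OmB

set_option autoImplicit false

/-! The strategy cannot be completed: the amount of mass that has to die is too large. -/

namespace Pool.Agent.P8H89.Om

open Classical MeasureTheory
open Pool.Agent.H561R3.Om Pool.Agent.H561R3

section tot

variable (qU : Str × Str → ℕ → Prop) (qW : Str → ℕ → Prop) (qV : ℕ × IC → ℕ → Prop) (κ : Str)

theorem level_sum (hU : ∀ a m n, m ≤ n → qU a m → qU a n) (j : ℕ) (p : Str) (q : ℝ) (hq : 0 ≤ q) :
    ∑ i ∈ Finset.range (TT κ), ((if dying qU qW κ j p ∧ bornP qU κ (sh qU qW qV κ i j) p ∧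
    ¬ bornP qU κ (sh qU qW qV κ (i + 1) j) p then wt p else 0) + q *
    (if dying qU qW κ j p ∧ bornP qU κ (sh qU qW qV κ (i + 1) j) p then wt p else 0)) ≤
    (if dying qU qW κ j p then (1 + q * TT κ) * wt p else 0) := by
  have hw := wt_pos p
  by_cases hd : dying qU qW κ j p
  · rw [if_pos hd]
    have h1 : ∀ i ∈ Finset.range (TT κ), ((if dying qU qW κ j p ∧ bornP qU κ (sh qU qW qV κ i j) p ∧
        ¬ bornP qU κ (sh qU qW qV κ (i + 1) j) p then wt p else 0) + q *
        (if dying qU qW κ j p ∧ bornP qU κ (sh qU qW qV κ (i + 1) j) p then wt p else 0)) ≤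
        ((if bornP qU κ (sh qU qW qV κ i j) p then wt p else 0) -
        (if bornP qU κ (sh qU qW qV κ (i + 1) j) p then wt p else 0)) + q * wt p := by
      intro i hi
      rw [Finset.mem_range] at hi
      have hqw : 0 ≤ q * wt p := mul_nonneg hq hw.le
      by_cases hb : bornP qU κ (sh qU qW qV κ (i + 1) j) p
      · have hb' : bornP qU κ (sh qU qW qV κ i j) p :=
          bornP_mono hU (sh_mono_l qU qW qV κ i j hi) hb
        rw [if_neg (by tauto), if_pos ⟨hd, hb⟩, if_pos hb, if_pos hb']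
        linarith
      · rw [if_neg (c := dying qU qW κ j p ∧ bornP qU κ (sh qU qW qV κ (i + 1) j) p) (by tauto),
          if_neg hb]
        by_cases hb' : bornP qU κ (sh qU qW qV κ i j) p
        · rw [if_pos ⟨hd, hb', hb⟩, if_pos hb']
          linarith
        · rw [if_neg (by tauto), if_neg hb']
          linarith
    refine (Finset.sum_le_sum h1).trans ?_
    rw [Finset.sum_add_distrib, Finset.sum_range_sub'
      (fun i => if bornP qU κ (sh qU qW qV κ i j) p then wt p else 0), Finset.sum_const, Finset.card_range,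
      nsmul_eq_mul]
    have h2 : (if bornP qU κ (sh qU qW qV κ 0 j) p then wt p else 0) -
        (if bornP qU κ (sh qU qW qV κ (TT κ) j) p then wt p else 0) ≤ wt p := by
      split_ifs <;> linarith
    linarith
  · rw [if_neg hd]
    refine Finset.sum_nonpos fun i _ => ?_
    rw [if_neg (by tauto), if_neg (by tauto)]
    simp

theorem dying_sum (hU : ∀ a m n, m ≤ n → qU a m → qU a n)
    (hW : ∀ a m n, m ≤ n → qW a m → qW a n) (p : Str) (c : ℝ) (hc : 0 ≤ c) (S : ℕ) :
    ∑ j ∈ Finset.range S, (if dying qU qW κ j p then c else 0) ≤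
      (if goneP qU qW κ S p then c else 0) := by
  have h1 : ∀ j ∈ Finset.range S, (if dying qU qW κ j p then c else 0) =
      (if goneP qU qW κ (j + 1) p then c else 0) - (if goneP qU qW κ j p then c else 0) := by
    intro j _
    unfold dying
    by_cases h2 : goneP qU qW κ j p
    · rw [if_neg (by tauto), if_pos h2, if_pos (goneP_mono hU hW (Nat.le_succ j) h2), sub_self]
    · by_cases h3 : goneP qU qW κ (j + 1) p
      · rw [if_pos ⟨h2, h3⟩, if_pos h3, if_neg h2, sub_zero]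
      · rw [if_neg (by tauto), if_neg h3, if_neg h2, sub_zero]
  rw [Finset.sum_congr rfl h1,
    Finset.sum_range_sub (fun j => if goneP qU qW κ j p then c else 0)]
  split_ifs <;> linarith

theorem total_deaths (hU : ∀ a m n, m ≤ n → qU a m → qU a n)
    (hW : ∀ a m n, m ≤ n → qW a m → qW a n) (Λ : Finset Str) (S : ℕ) (q : ℝ) (hq : 0 ≤ q) :
    ∑ i ∈ Finset.range (TT κ), ∑ j ∈ Finset.range S, (dn qU qW qV κ Λ i j +
      q * dO qU qW qV κ Λ i j) ≤
    (1 + q * TT κ) * ∑ p ∈ Λ, (if goneP qU qW κ S p then wt p else 0) := by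
  have h1 : ∑ i ∈ Finset.range (TT κ), ∑ j ∈ Finset.range S, (dn qU qW qV κ Λ i j +
      q * dO qU qW qV κ Λ i j) = ∑ p ∈ Λ, ∑ j ∈ Finset.range S, ∑ i ∈ Finset.range (TT κ),
      ((if dying qU qW κ j p ∧ bornP qU κ (sh qU qW qV κ i j) p ∧
    ¬ bornP qU κ (sh qU qW qV κ (i + 1) j) p then wt p else 0) + q *
    (if dying qU qW κ j p ∧ bornP qU κ (sh qU qW qV κ (i + 1) j) p then wt p else 0)) := by
    rw [Finset.sum_comm]
    rw [Finset.sum_comm (s := Λ)]
    refine Finset.sum_congr rfl fun j _ => ?_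
    rw [Finset.sum_comm (s := Λ)]
    refine Finset.sum_congr rfl fun i _ => ?_
    unfold dn dO
    rw [Finset.mul_sum, ← Finset.sum_add_distrib]
  rw [h1, Finset.mul_sum]
  refine Finset.sum_le_sum fun p _ => ?_
  have hw := wt_pos p
  have hc : 0 ≤ (1 + q * TT κ) * wt p := by positivity
  refine (Finset.sum_le_sum fun j _ => level_sum qU qW qV κ hU j p q hq).trans ?_
  refine (dying_sum qU qW κ hU hW p _ hc S).trans ?_
  split_ifs <;> simp

variable (V : ℕ → Set IC)
  (hV : ∀ n, volume (openOf (V n)) ≤ ENNReal.ofReal ((1 / 2 : ℝ) ^ n))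
  (hqV : ∀ c t s, qV (c, t) s → t ∈ V c)

include hV hqV in
/-- The strategy is never completed. -/
theorem E_bound (hU : ∀ a m n, m ≤ n → qU a m → qU a n)
    (hW : ∀ a m n, m ≤ n → qW a m → qW a n) (D : Set Str)
    (hD : ∀ p ∈ D, ∀ q ∈ D, p <+: q → p = q)
    (hUD : ∀ p x n, qU (p, x) n → p ∈ D) (S : ℕ) :
    E qU qW qV κ 0 S ≤ 7 / 8 := by
  have hΛ : ∀ p : Str, p.length ≤ S → p ∈ (upTo S).toFinset := by
    intro p hp
    rw [List.mem_toFinset, mem_upTo]; exact hp
  have h1 := total_deaths qU qW qV κ hU hW (upTo S).toFinset S ((1 / 2 : ℝ) ^ kk κ) (by positivity)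
  have h2 : ∑ p ∈ (upTo S).toFinset, (if goneP qU qW κ S p then wt p else 0) ≤ 1 := by
    rw [← Finset.sum_filter]
    refine kraft _ ?_
    intro p hp q hq
    rw [Finset.mem_filter] at hp hq
    obtain ⟨⟨_, _, x, _, hx⟩, _⟩ := hp.2
    obtain ⟨⟨_, _, y, _, hy⟩, _⟩ := hq.2
    exact hD p (hUD _ _ _ hx) q (hUD _ _ _ hy)
  have h3 : ∑ i ∈ Finset.range (TT κ), ((1 / 2 : ℝ) ^ κ.length * E qU qW qV κ 0 S -
      2 * (1 / 2 : ℝ) ^ kk κ) ≤ ∑ i ∈ Finset.range (TT κ), ∑ j ∈ Finset.range S,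
        (dn qU qW qV κ (upTo S).toFinset i j + (1 / 2 : ℝ) ^ kk κ *
          dO qU qW qV κ (upTo S).toFinset i j) := by
    refine Finset.sum_le_sum fun i hi => ?_
    rw [Finset.mem_range] at hi
    exact level_gain qU qW qV κ V hV hqV hU _ i S hi hΛ
  rw [Finset.sum_const, Finset.card_range, nsmul_eq_mul] at h3
  have hT : (TT κ : ℝ) = 2 * 2 ^ κ.length := by
    unfold TT; push_cast; rw [pow_succ]; ring
  have hk : (1 / 2 : ℝ) ^ kk κ = (1 / 2 : ℝ) ^ κ.length / 8 := by
    unfold kk; rw [pow_add]; norm_num; ring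
  have hh : (1 / 2 : ℝ) ^ κ.length * 2 ^ κ.length = 1 := by
    rw [← mul_pow]; norm_num
  rw [hT, hk] at h3
  rw [hT, hk] at h1
  set a := (1 / 2 : ℝ) ^ κ.length with ha
  set b := (2 : ℝ) ^ κ.length with hb
  have h4 : (1 + a / 8 * (2 * b)) * ∑ p ∈ (upTo S).toFinset,
      (if goneP qU qW κ S p then wt p else 0) ≤ (1 + a / 8 * (2 * b)) * 1 :=
    mul_le_mul_of_nonneg_left h2 (by positivity)
  have h5 : a / 8 * (2 * b) = 1 / 4 := by
    calc a / 8 * (2 * b) = a * b / 4 := by ring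
      _ = 1 / 4 := by rw [hh]
  have h6 : 2 * b * (a * E qU qW qV κ 0 S - 2 * (a / 8)) = 2 * E qU qW qV κ 0 S - 1 / 2 := by
    calc 2 * b * (a * E qU qW qV κ 0 S - 2 * (a / 8)) = (a * b) * (2 * E qU qW qV κ 0 S) -
        (a * b) / 2 := by ring
      _ = _ := by rw [hh]; ring
  rw [h6] at h3
  rw [h5] at h1 h4
  linarith

end tot

end Pool.Agent.P8H89.Om
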