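import Mathlib
import Pool.Agent.P8H89.OmC

set_option autoImplicit false

/-! The programs of the strategy: the strings passed by the position of level `0`. -/

namespace Pool.Agent.P8H89.Om

open Classical MeasureTheory
open Pool.Agent.H561R3.Om Pool.Agent.H561R3

/-- the number with binary digits `p` -/
def val (p : Str) : ℕ := p.foldl (fun a b => 2 * a + (if b = true then 1 else 0)) 0

theorem val_append_singleton (p : Str) (b : Bool) :
    val (p ++ [b]) = 2 * val p + (if b = true then 1 else 0) := by
  unfold val; simp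

theorem val_append (p r : Str) : val (p ++ r) = val p * 2 ^ r.length + val r := by
  induction r using List.reverseRecOn with
  | nil => simp [val]
  | append_singleton r b ih =>
    rw [← List.append_assoc, val_append_singleton, ih, val_append_singleton, List.length_append,
      List.length_singleton, pow_succ]
    ring

theorem val_lt (p : Str) : val p < 2 ^ p.length := by
  induction p using List.reverseRecOn with
  | nil => simp [val]
  | append_singleton r b ih =>
    rw [val_append_singleton, List.length_append, List.length_singleton, pow_succ]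
    split_ifs <;> omega

theorem val_inj {p q : Str} (h : p.length = q.length) (hv : val p = val q) : p = q := by
  induction p using List.reverseRecOn generalizing q with
  | nil =>
    rw [List.length_nil] at h
    exact (List.length_eq_zero_iff.1 h.symm).symm
  | append_singleton r b ih =>
    induction q using List.reverseRecOn with
    | nil => simp at h
    | append_singleton r' b' _ =>
      rw [val_append_singleton, val_append_singleton] at hv
      simp only [List.length_append, List.length_singleton, Nat.add_right_cancel_iff] at h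
      have h1 : val r = val r' := by split_ifs at hv <;> omega
      have h2 : b = b' := by cases b <;> cases b' <;> simp at hv ⊢ <;> omega
      rw [ih h h1, h2]

theorem pr_val : Primrec val := by
  unfold val
  refine Primrec.list_foldl (f := fun p : Str => p) (g := fun _ => (0 : ℕ))
    (h := fun (_ : Str) (x : ℕ × Bool) => 2 * x.1 + (if x.2 = true then 1 else 0))
    Primrec.id (Primrec.const 0) ?_
  have h1 : Primrec fun y : Str × (ℕ × Bool) => y.2.1 := Primrec.fst.comp Primrec.snd
  have h2 : Primrec fun y : Str × (ℕ × Bool) => y.2.2 := Primrec.snd.comp Primrec.snd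
  exact Primrec.nat_add.comp (Primrec.nat_mul.comp (Primrec.const 2) h1)
    (Primrec.ite (Primrec.eq.comp h2 (Primrec.const true)) (Primrec.const 1) (Primrec.const 0))

theorem card_val (n a b : ℕ) (hb : b ≤ 2 ^ n) :
    ((FS n).filter (fun p => a ≤ val p ∧ val p < b)).card = b - a := by
  have himg : (FS n).image val = Finset.range (2 ^ n) := by
    refine Finset.eq_of_subset_of_card_le ?_ ?_
    · intro x hx
      rw [Finset.mem_image] at hx
      obtain ⟨p, hp, rfl⟩ := hx
      rw [mem_FS] at hp
      rw [Finset.mem_range, ← hp]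
      exact val_lt p
    · rw [Finset.card_range, Finset.card_image_of_injOn, card_FS]
      intro p hp q hq h
      rw [Finset.mem_coe, mem_FS] at hp hq
      exact val_inj (hp.trans hq.symm) h
  have h2 : ((FS n).filter (fun p => a ≤ val p ∧ val p < b)).image val = Finset.Ico a b := by
    ext x
    rw [Finset.mem_image, Finset.mem_Ico]
    constructor
    · rintro ⟨p, hp, rfl⟩
      rw [Finset.mem_filter] at hp
      exact hp.2
    · intro hx
      have : x ∈ (FS n).image val := by
        rw [himg, Finset.mem_range]; omega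
      rw [Finset.mem_image] at this
      obtain ⟨p, hp, rfl⟩ := this
      exact ⟨p, Finset.mem_filter.2 ⟨hp, hx⟩, rfl⟩
  rw [← Nat.card_Ico, ← h2, Finset.card_image_of_injOn]
  intro p hp q hq h
  rw [Finset.mem_coe, Finset.mem_filter, mem_FS] at hp hq
  exact val_inj (hp.1.trans hq.1.symm) h

section own

variable (qU : Str × Str → ℕ → Prop) (qW : Str → ℕ → Prop) (qV : ℕ × IC → ℕ → Prop) (κ : Str)

/-- the programs of the strategy for `κ` -/
def ownD (q : Str) : Prop :=
  e qU qW qV κ 0 q.length ≤ val q ∧ 2 * (val q + 1) ≤ e qU qW qV κ 0 (q.length + 1)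

theorem e_steps (s d : ℕ) : 2 ^ d * e qU qW qV κ 0 s ≤ e qU qW qV κ 0 (s + d) := by
  induction d with
  | zero => simp
  | succ d ih =>
    have := e_step qU qW qV κ 0 (s + d) (Nat.zero_le _)
    rw [← Nat.add_assoc, pow_succ]
    calc 2 ^ d * 2 * e qU qW qV κ 0 s = 2 * (2 ^ d * e qU qW qV κ 0 s) := by ring
      _ ≤ 2 * e qU qW qV κ 0 (s + d) := Nat.mul_le_mul_left _ ih
      _ ≤ _ := this

theorem ownD_prefix {q q' : Str} (h : ownD qU qW qV κ q) (h' : ownD qU qW qV κ q')
    (hp : q <+: q') : q = q' := by
  obtain ⟨r, rfl⟩ := hp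
  rcases Nat.eq_zero_or_pos r.length with h0 | h0
  · rw [List.length_eq_zero_iff] at h0
    rw [h0, List.append_nil]
  · exfalso
    obtain ⟨d, hd⟩ : ∃ d, r.length = d + 1 := ⟨r.length - 1, by omega⟩
    have h1 := h'.1
    rw [val_append, List.length_append, hd] at h1
    have h2 := e_steps qU qW qV κ (q.length + 1) d
    have h3 : q.length + 1 + d = q.length + (d + 1) := by ring
    rw [h3] at h2
    have h4 := val_lt r
    rw [hd] at h4
    have h5 : 2 ^ d * (2 * (val q + 1)) ≤ 2 ^ d * e qU qW qV κ 0 (q.length + 1) :=
      Nat.mul_le_mul_left _ h.2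
    have h6 : 2 ^ d * (2 * (val q + 1)) = val q * 2 ^ (d + 1) + 2 ^ (d + 1) := by
      rw [pow_succ]; ring
    omega

/-- the amount pushed at length `n` -/
theorem own_sum_level (n : ℕ) :
    ∑ q ∈ (FS n).filter (ownD qU qW qV κ), wt q = E qU qW qV κ 0 (n + 1) - E qU qW qV κ 0 n := by
  have hev := two_dvd_e qU qW qV κ 0 n (Nat.zero_le _)
  obtain ⟨b, hb⟩ := hev
  have hle := e_le_pow qU qW qV κ 0 (n + 1) (Nat.zero_le _)
  have hst := e_step qU qW qV κ 0 n (Nat.zero_le _)
  have h1 : (FS n).filter (ownD qU qW qV κ) =
      (FS n).filter (fun p => e qU qW qV κ 0 n ≤ val p ∧ val p < b) := by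
    refine Finset.filter_congr fun p hp => ?_
    rw [mem_FS] at hp
    unfold ownD
    rw [hp, hb]
    constructor
    · rintro ⟨h2, h3⟩; exact ⟨h2, by omega⟩
    · rintro ⟨h2, h3⟩; exact ⟨h2, by omega⟩
  have h2 : ∀ q ∈ (FS n).filter (ownD qU qW qV κ), wt q = (1 / 2 : ℝ) ^ n := by
    intro q hq
    rw [Finset.mem_filter, mem_FS] at hq
    unfold wt; rw [hq.1]
  rw [Finset.sum_congr rfl h2, Finset.sum_const, h1, card_val _ _ _ (by
    rw [hb, pow_succ] at hle; omega), nsmul_eq_mul]
  have h3 : e qU qW qV κ 0 n ≤ b := by omega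
  unfold E
  rw [hb, Nat.cast_sub h3, pow_succ, one_div, inv_pow]
  push_cast
  field_simp

/-- the programs of length less than `s` -/
noncomputable def ownF (s : ℕ) : Finset Str :=
  (Finset.range s).biUnion fun n => (FS n).filter (ownD qU qW qV κ)

theorem mem_ownF {s : ℕ} {q : Str} :
    q ∈ ownF qU qW qV κ s ↔ q.length < s ∧ ownD qU qW qV κ q := by
  unfold ownF
  simp only [Finset.mem_biUnion, Finset.mem_range, Finset.mem_filter, mem_FS]
  constructor
  · rintro ⟨n, h1, h2, h3⟩; exact ⟨by omega, h3⟩
  · rintro ⟨h1, h2⟩; exact ⟨_, h1, rfl, h2⟩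

theorem own_sum (s : ℕ) (h0 : 0 < TT κ) :
    ∑ q ∈ ownF qU qW qV κ s, wt q = E qU qW qV κ 0 s := by
  unfold ownF
  rw [Finset.sum_biUnion]
  · rw [Finset.sum_congr rfl fun n _ => own_sum_level qU qW qV κ n, Finset.sum_range_sub]
    have : E qU qW qV κ 0 0 = 0 := by
      unfold E
      rw [e_zero _ _ _ _ _ (by omega), if_neg (by omega)]
      simp
    rw [this, sub_zero]
  · intro a _ b _ hab
    rw [Function.onFun, Finset.disjoint_left]
    intro x hx hx'
    rw [Finset.mem_filter, mem_FS] at hx hx'
    exact hab (hx.1.symm.trans hx'.1)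

end own

theorem TT_pos (κ : Str) : 0 < TT κ := by unfold TT; positivity

end Pool.Agent.P8H89.Om
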