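import Mathlib
import Pool.Agent.P8H89.OmD

set_option autoImplicit false

/-! The machine running all the strategies. -/

namespace Pool.Agent.P8H89.Om

open Classical MeasureTheory Encodable
open Pool.Agent.H561R3.Om Pool.Agent.H561R3 Pool.Agent.Helper227

/-- the string in front of the programs of strategy number `n` -/
def kap (n : ℕ) : Str :=
  ((decode (α := Str) n).getD []) ++ ((List.range n).map (fun _ => false) ++ [true])

/-- the number of zeros in front of the first one -/
def idx (p : Str) : ℕ := p.findIdx (fun b => b)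

section mach

variable (qU : Str × Str → ℕ → Prop) (qW : Str → ℕ → Prop) (qV : ℕ × IC → ℕ → Prop) (x0 : Str)

/-- the machine -/
noncomputable def mach (p : Str) : Option Str :=
  if idx p < p.length ∧ ownD qU qW qV (kap (idx p)) (p.drop (idx p + 1)) then some x0 else none

theorem pr_kap : Primrec kap := by
  unfold kap
  refine Primrec.list_append.comp ?_ (Primrec.list_append.comp ?_ (Primrec.const [true]))
  · exact Primrec.option_getD.comp Primrec.decode (Primrec.const [])
  · exact Primrec.list_map Primrec.list_range (Primrec.const false).to₂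

theorem pr_idx : Primrec idx := by
  unfold idx
  exact Primrec.list_findIdx Primrec.id Primrec.snd

variable {qU qW qV} in
theorem pr_e0 (hU : PrimrecRel qU) (hW : PrimrecRel qW) (hV : PrimrecRel qV)
    {α : Type} [Primcodable α] {κ : α → Str} {s : α → ℕ} (hκ : Primrec κ) (hs : Primrec s) :
    Primrec fun a => e qU qW qV (κ a) 0 (s a) :=
  pr_gE ((pr_ST hU hW hV).comp hκ hs) (Primrec.const 0)

variable {qU qW qV} in
theorem pr_ownD (hU : PrimrecRel qU) (hW : PrimrecRel qW) (hV : PrimrecRel qV)
    {α : Type} [Primcodable α] {κ q : α → Str} (hκ : Primrec κ) (hq : Primrec q) :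
    PrimrecPred fun a => ownD qU qW qV (κ a) (q a) := by
  unfold ownD
  have hv : Primrec fun a => val (q a) := pr_val.comp hq
  have hl : Primrec fun a => (q a).length := Primrec.list_length.comp hq
  refine PrimrecPred.and ?_ ?_
  · exact Primrec.nat_le.comp (pr_e0 hU hW hV hκ hl) hv
  · exact Primrec.nat_le.comp (Primrec.nat_mul.comp (Primrec.const 2) (Primrec.succ.comp hv))
      (pr_e0 hU hW hV hκ (Primrec.succ.comp hl))

variable {qU qW qV} in
theorem pr_mach (hU : PrimrecRel qU) (hW : PrimrecRel qW) (hV : PrimrecRel qV) :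
    Primrec (mach qU qW qV x0) := by
  unfold mach
  refine Primrec.ite (PrimrecPred.and ?_ ?_) (Primrec.const _) (Primrec.const _)
  · exact Primrec.nat_lt.comp pr_idx Primrec.list_length
  · exact pr_ownD hU hW hV (pr_kap.comp pr_idx)
      (Primrec.list_drop.comp (Primrec.succ.comp pr_idx) Primrec.id)

theorem idx_append {p r : Str} (h : idx p < p.length) : idx (p ++ r) = idx p := by
  unfold idx at h ⊢
  rw [List.findIdx_append, if_pos h]

theorem mach_pf (hU : PrimrecRel qU) (hW : PrimrecRel qW) (hV : PrimrecRel qV) :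
    PFMachine (fun p => (mach qU qW qV x0 p : Part Str)) := by
  refine ⟨(pr_mach x0 hU hW hV).to_comp.ofOption, ?_⟩
  intro p q hp hq hpq
  have hp' : idx p < p.length ∧ ownD qU qW qV (kap (idx p)) (p.drop (idx p + 1)) := by
    by_contra hc
    have hp2 : (mach qU qW qV x0 p : Part Str).Dom := hp
    unfold mach at hp2
    rw [if_neg hc] at hp2
    exact hp2.elim
  have hq' : idx q < q.length ∧ ownD qU qW qV (kap (idx q)) (q.drop (idx q + 1)) := by
    by_contra hc
    have hq2 : (mach qU qW qV x0 q : Part Str).Dom := hq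
    unfold mach at hq2
    rw [if_neg hc] at hq2
    exact hq2.elim
  obtain ⟨r, rfl⟩ := hpq
  rw [idx_append hp'.1, List.drop_append_of_le_length (by omega)] at hq'
  have h1 := ownD_prefix qU qW qV _ hp'.2 hq'.2 (List.prefix_append _ _)
  have h2 : r = [] := by simpa using h1
  rw [h2, List.append_nil]

theorem mach_own (n : ℕ) (q : Str) :
    mach qU qW qV x0 ((List.range n).map (fun _ => false) ++ ([true] ++ q)) =
      if ownD qU qW qV (kap n) q then some x0 else none := by
  have h1 : idx ((List.range n).map (fun _ => false) ++ ([true] ++ q)) = n := by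
    unfold idx
    rw [List.findIdx_append]
    have h2 : ((List.range n).map (fun _ => false)).findIdx (fun b => b) = n := by
      rw [List.findIdx_eq_length_of_false]
      · simp
      · intro x hx
        rw [List.mem_map] at hx
        obtain ⟨_, _, rfl⟩ := hx
        rfl
    rw [h2]
    simp [List.findIdx_cons]
  have h3 : ((List.range n).map (fun _ => false) ++ ([true] ++ q)).drop (n + 1) = q := by
    have : (List.range n).map (fun _ => false) ++ ([true] ++ q) =
        ((List.range n).map (fun _ => false) ++ [true]) ++ q := by simp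
    rw [this]
    have h4 : n + 1 = ((List.range n).map (fun _ => false) ++ [true]).length := by simp
    rw [h4, List.drop_left]
  unfold mach
  rw [h1, h3]
  have h5 : n < ((List.range n).map (fun _ => false) ++ ([true] ++ q)).length := by simp
  simp only [h5, true_and]

end mach

section conv

variable {qU : Str × Str → ℕ → Prop} {qW : Str → ℕ → Prop} {qV : ℕ × IC → ℕ → Prop} {κ x0 : Str}

/-- the approximation of the mass of the set -/
noncomputable def nu (qU : Str × Str → ℕ → Prop) (qW : Str → ℕ → Prop) (qV : ℕ × IC → ℕ → Prop)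
    (κ : Str) (s : ℕ) : ℝ :=
  mass qU qW κ (upTo s).toFinset s s + (1 / 2 : ℝ) ^ κ.length * E qU qW qV κ 0 s

theorem NN_eq (s : ℕ) : (NN qU qW κ s (e qU qW qV κ 0 s) : ℝ) / 2 ^ (s + κ.length) =
    nu qU qW qV κ s := by
  unfold nu NN
  rw [← nb_eq qU qW κ _ s (fun p hp => by rw [List.mem_toFinset, mem_upTo]; exact hp)]
  unfold E
  rw [pow_add, one_div, inv_pow]
  push_cast
  field_simp

/-- the programs alive at stage `s`, with those of the strategy -/
noncomputable def live (qU : Str × Str → ℕ → Prop) (qW : Str → ℕ → Prop)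
    (qV : ℕ × IC → ℕ → Prop) (κ : Str) (s : ℕ) : Finset Str :=
  ((upTo s).toFinset.filter fun p => bornP qU κ s p ∧ ¬ goneP qU qW κ s p) ∪
    (ownF qU qW qV κ s).image (fun q => κ ++ q)

theorem live_sum (s : ℕ) : ∑ p ∈ live qU qW qV κ s, (1 / 2 : ℝ) ^ p.length = nu qU qW qV κ s := by
  unfold live
  rw [Finset.sum_union]
  · unfold nu mass
    congr 1
    · rw [Finset.sum_filter]; rfl
    · rw [Finset.sum_image (fun a _ b _ h => List.append_cancel_left h), ← own_sum _ _ _ _ _ (TT_pos κ),
        Finset.mul_sum]
      refine Finset.sum_congr rfl fun q _ => ?_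
      unfold wt
      rw [List.length_append, pow_add]
  · rw [Finset.disjoint_left]
    intro p hp hp'
    rw [Finset.mem_filter] at hp
    rw [Finset.mem_image] at hp'
    obtain ⟨q, _, rfl⟩ := hp'
    exact hp.2.1.2.1 (List.prefix_append _ _)

variable (U : Str →. Str) (X : Set Str)
  (hUpf : ∀ p q : Str, (U p).Dom → (U q).Dom → p <+: q → p = q)
  (hUm : ∀ a m n, m ≤ n → qU a m → qU a n) (hU : ∀ p x, x ∈ U p ↔ ∃ n, qU (p, x) n)
  (hWm : ∀ a m n, m ≤ n → qW a m → qW a n) (hW : ∀ x, x ∉ X ↔ ∃ n, qW x n)
  (hx0 : x0 ∈ X)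
  (hκ : ∀ q : Str, U (κ ++ q) = (if ownD qU qW qV κ q then some x0 else none : Option Str))

include hUpf hUm hU hWm hW hx0 hκ

theorem own_dom (q : Str) (h : ownD qU qW qV κ q) : x0 ∈ U (κ ++ q) := by
  rw [hκ, if_pos h]
  simp

omit hUpf hUm hWm hW hx0 in
theorem dom_own (q : Str) (h : (U (κ ++ q)).Dom) : ownD qU qW qV κ q := by
  by_contra hc
  rw [hκ, if_neg hc] at h
  exact h.elim

theorem tendsto_nu : Filter.Tendsto (nu qU qW qV κ) Filter.atTop (nhds (Omega U X)) := by
  have h := tendsto_live (D := {p | (U p).Dom}) (fun p hp q hq => hUpf p q hp hq)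
    (live qU qW qV κ) {p | ∃ x ∈ X, x ∈ U p} ?_ ?_
  · refine h.congr fun s => ?_
    rw [live_sum]
  · intro s p hp
    unfold live at hp
    rw [Finset.mem_union, Finset.mem_filter, Finset.mem_image] at hp
    rcases hp with ⟨_, ⟨_, _, x, _, hx⟩, _⟩ | ⟨q, hq, rfl⟩
    · exact Part.dom_iff_mem.2 ⟨x, (hU p x).2 ⟨_, hx⟩⟩
    · rw [mem_ownF] at hq
      exact Part.dom_iff_mem.2 ⟨x0, own_dom U X hUpf hUm hU hWm hW hx0 hκ q hq.2⟩
  · intro p
    by_cases hp : κ <+: p
    · obtain ⟨q, rfl⟩ := hp
      filter_upwards [Filter.eventually_gt_atTop q.length] with s hs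
      unfold live
      rw [Finset.mem_union, Finset.mem_filter, Finset.mem_image]
      constructor
      · rintro (⟨_, h1, _⟩ | ⟨q', hq', h2⟩)
        · exact absurd (List.prefix_append _ _) h1.2.1
        · have h3 := List.append_cancel_left h2
          subst h3
          rw [mem_ownF] at hq'
          exact ⟨x0, hx0, own_dom U X hUpf hUm hU hWm hW hx0 hκ q' hq'.2⟩
      · rintro ⟨x, hx, hx'⟩
        right
        refine ⟨q, ?_, rfl⟩
        rw [mem_ownF]
        exact ⟨hs, dom_own U hU hκ q (Part.dom_iff_mem.2 ⟨x, hx'⟩)⟩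
    · by_cases hd : (U p).Dom
      · obtain ⟨x, hx⟩ := Part.dom_iff_mem.1 hd
        obtain ⟨n, hn⟩ := (hU p x).1 hx
        have huniq : ∀ y n, qU (p, y) n → y = x := fun y n hy =>
          Part.mem_unique ((hU p y).2 ⟨n, hy⟩) hx
        by_cases hxX : x ∈ X
        · filter_upwards [Filter.eventually_gt_atTop (n + encode x + p.length)] with s hs
          unfold live
          rw [Finset.mem_union, Finset.mem_filter, Finset.mem_image]
          constructor
          · intro _; exact ⟨x, hxX, hx⟩
          · intro _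
            left
            refine ⟨by rw [List.mem_toFinset, mem_upTo]; omega, ⟨by omega, hp, x,
              mem_cand_of_encode (by omega), hUm _ _ _ (by omega) hn⟩, ?_⟩
            rintro ⟨_, y, _, hy1, hy2⟩
            have := huniq y _ hy1
            subst this
            exact (hW y).2 ⟨_, hy2⟩ hxX
        · obtain ⟨m, hm⟩ := (hW x).1 hxX
          filter_upwards [Filter.eventually_gt_atTop (n + m + encode x + p.length)] with s hs
          unfold live
          rw [Finset.mem_union, Finset.mem_filter, Finset.mem_image]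
          constructor
          · rintro (⟨_, h1, h2⟩ | ⟨q, _, hq⟩)
            · exfalso
              exact h2 ⟨h1, x, mem_cand_of_encode (by omega), hUm _ _ _ (by omega) hn,
                hWm _ _ _ (by omega) hm⟩
            · exact absurd ⟨q, hq⟩ hp
          · rintro ⟨y, hy, hy'⟩
            have := Part.mem_unique hy' hx
            subst this
            exact absurd hy hxX
      · refine Filter.Eventually.of_forall fun s => ?_
        unfold live
        rw [Finset.mem_union, Finset.mem_filter, Finset.mem_image]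
        constructor
        · rintro (⟨_, ⟨_, _, x, _, hx⟩, _⟩ | ⟨q, _, hq⟩)
          · exact absurd (Part.dom_iff_mem.2 ⟨x, (hU p x).2 ⟨_, hx⟩⟩) hd
          · exact absurd ⟨q, hq⟩ hp
        · rintro ⟨x, _, hx⟩
          exact absurd (Part.dom_iff_mem.2 ⟨x, hx⟩) hd

end conv

end Pool.Agent.P8H89.Om
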