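import Mathlib
import Pool.Agent.P8H89.OmE

set_option autoImplicit false

/-! The strategy is completed if the limit is covered by the test. -/

namespace Pool.Agent.P8H89.Om

open Classical MeasureTheory Encodable Filter
open Pool.Agent.H561R3.Om Pool.Agent.H561R3 Pool.Agent.Helper227

section prog

variable {qU : Str × Str → ℕ → Prop} {qW : Str → ℕ → Prop} {qV : ℕ × IC → ℕ → Prop} {κ : Str}
  {V : ℕ → Set IC} {α : ℝ}

theorem act_of {s r c : ℕ} {t : IC} (ht : t ∈ cand IC s) (hq : qV (c, t) s)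
    (h1 : ratOf t.1 < nu qU qW qV κ s)
    (h2 : nu qU qW qV κ s + (r : ℝ) / 2 ^ (s + κ.length) ≤ ratOf t.2) :
    Act qU qW qV κ s (e qU qW qV κ 0 s) c r := by
  refine ⟨t, ht, hq, ?_, ?_⟩
  · have hp : (0 : ℝ) < 2 ^ (s + κ.length) := by positivity
    rw [← NN_eq] at h1
    unfold ratOf at h1
    rw [div_lt_div_iff₀ (by positivity) hp] at h1
    have : ((t.1.1 * 2 ^ (s + κ.length) : ℕ) : ℝ) <
        ((NN qU qW κ s (e qU qW qV κ 0 s) * (t.1.2.2 + 1) + t.1.2.1 * 2 ^ (s + κ.length) : ℕ) : ℝ) := by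
      push_cast
      linarith
    exact_mod_cast this
  · have hp : (0 : ℝ) < 2 ^ (s + κ.length) := by positivity
    rw [← NN_eq, ← add_div] at h2
    unfold ratOf at h2
    rw [div_le_div_iff₀ hp (by positivity)] at h2
    have : (((NN qU qW κ s (e qU qW qV κ 0 s) + r) * (t.2.2.2 + 1) +
        t.2.2.1 * 2 ^ (s + κ.length) : ℕ) : ℝ) ≤ ((t.2.1 * 2 ^ (s + κ.length) : ℕ) : ℝ) := by
      push_cast
      linarith
    exact_mod_cast this

theorem progress (hlim : Tendsto (nu qU qW qV κ) atTop (nhds α)) (hα : ∀ c, α ∈ openOf (V c))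
    (hVm : ∀ a m n, m ≤ n → qV a m → qV a n) (hV : ∀ c t, t ∈ V c → ∃ n, qV (c, t) n) :
    ∀ l ≤ TT κ, ∀ s, ∃ s', s ≤ s' ∧ l < lv qU qW qV κ s' := by
  intro l
  induction l with
  | zero => intro _ s; exact ⟨s, le_rfl, lv_pos qU qW qV κ s⟩
  | succ l ih =>
    intro hl s0
    have ih := ih (by omega)
    by_contra hcon
    push Not at hcon
    -- level `l + 1` stays active
    have hact : ∀ s, s0 ≤ s → e qU qW qV κ 0 s < e qU qW qV κ (l + 1) s := by
      intro s hs
      have h1 := hcon s hs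
      have h2 := lv_spec qU qW qV κ s (by omega)
      exact h2.trans_le (e_mono_le qU qW qV κ s _ _ h1 hl)
    have hg : ∀ s, s0 ≤ s → g qU qW qV κ (l + 1) s = g qU qW qV κ (l + 1) s0 := by
      intro s hs
      induction s, hs using Nat.le_induction with
      | base => rfl
      | succ s hs ihs =>
        rw [g_succ _ _ _ _ _ _ hl, ihs]
        have := hcon s hs
        split_ifs with h1 h2
        · rfl
        · omega
        · rfl
    have hE : ∀ s, s0 ≤ s → E qU qW qV κ (l + 1) s = E qU qW qV κ (l + 1) s0 := by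
      intro s hs
      induction s, hs using Nat.le_induction with
      | base => rfl
      | succ s hs ihs =>
        rw [← ihs]
        refine E_eq qU qW qV κ _ _ ?_
        rw [e_succ _ _ _ _ _ _ hl]
        have := hcon s hs
        split_ifs with h1 h2
        · rfl
        · omega
        · rfl
    obtain ⟨c, hc⟩ : ∃ c, c = g qU qW qV κ (l + 1) s0 + kk κ := ⟨_, rfl⟩
    obtain ⟨t, htV, ht1, ht2⟩ := hα c
    obtain ⟨n, hn⟩ := hV c t htV
    obtain ⟨η, hη, hη2⟩ : ∃ η : ℝ, 0 < η ∧ α + 2 * η ≤ ratOf t.2 :=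
      ⟨(ratOf t.2 - α) / 2, by linarith, by linarith⟩
    obtain ⟨δ, hδ⟩ : ∃ δ : ℝ, δ = η * 2 ^ κ.length / 2 := ⟨_, rfl⟩
    have hδ0 : 0 < δ := by rw [hδ]; positivity
    have hev1 : ∀ᶠ s in atTop, ratOf t.1 < nu qU qW qV κ s :=
      hlim.eventually (lt_mem_nhds ht1)
    have hev2 : ∀ᶠ s in atTop, nu qU qW qV κ s < α + η :=
      hlim.eventually (gt_mem_nhds (by linarith))
    have hev3 : ∀ᶠ s : ℕ in atTop, (1 / 2 : ℝ) ^ s < δ :=
      (tendsto_pow_atTop_nhds_zero_of_lt_one (by norm_num) (by norm_num)).eventually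
        (gt_mem_nhds hδ0)
    obtain ⟨s1, hs1⟩ := eventually_atTop.1 (hev1.and (hev2.and hev3))
    -- the step
    have hstep : ∀ s, max s1 (max s0 (n + encode t + 1)) ≤ s →
        ∃ s', s ≤ s' ∧ E qU qW qV κ 0 s + δ ≤ E qU qW qV κ 0 s' := by
      intro s hs
      obtain ⟨s2, hs2, hlv⟩ := ih s
      have hs20 : s0 ≤ s2 := by omega
      have hlv' : lv qU qW qV κ s2 = l + 1 := by
        have := hcon s2 hs20
        omega
      obtain ⟨hn1, hn2, hn3⟩ := hs1 s2 (by omega)
      have hp : (0 : ℝ) < 2 ^ s2 := by positivity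
      have hpk : (0 : ℝ) < 2 ^ κ.length := by positivity
      obtain ⟨r, hr⟩ : ∃ r, r = min (e qU qW qV κ (l + 1) s2 - e qU qW qV κ 0 s2)
        ⌊η * 2 ^ (s2 + κ.length)⌋₊ := ⟨_, rfl⟩
      have hr1 : r ≤ e qU qW qV κ (l + 1) s2 - e qU qW qV κ 0 s2 := by rw [hr]; exact min_le_left _ _
      have hr2 : (r : ℝ) ≤ η * 2 ^ (s2 + κ.length) := by
        have h1 : r ≤ ⌊η * 2 ^ (s2 + κ.length)⌋₊ := by rw [hr]; exact min_le_right _ _
        exact (Nat.cast_le.2 h1).trans (Nat.floor_le (by positivity))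
      have hAct : Act qU qW qV κ s2 (e qU qW qV κ 0 s2) c r := by
        refine act_of (t := t) (mem_cand_of_encode (by omega)) (hVm _ _ _ (by omega) hn) hn1 ?_
        have h1 : (r : ℝ) / 2 ^ (s2 + κ.length) ≤ η := by
          rw [div_le_iff₀ (by positivity)]; exact hr2
        linarith
      have ham : r ≤ am qU qW qV κ s2 := by
        refine le_am qU qW qV κ s2 r ?_ ?_
        · rw [hlv']; exact hr1
        · rw [hlv', hg s2 hs20, ← hc]; exact hAct
      have hfl : δ * 2 ^ s2 < ⌊η * 2 ^ (s2 + κ.length)⌋₊ := by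
        have h1 := Nat.lt_floor_add_one (η * 2 ^ (s2 + κ.length))
        have h2 : (1 : ℝ) < δ * 2 ^ s2 := by
          have h3 : (1 / 2 : ℝ) ^ s2 * 2 ^ s2 = 1 := by rw [← mul_pow]; norm_num
          rw [← h3]
          exact mul_lt_mul_of_pos_right hn3 hp
        have h3 : η * 2 ^ (s2 + κ.length) = 2 * (δ * 2 ^ s2) := by
          rw [hδ, pow_add]; ring
        rw [h3] at h1 ⊢
        linarith
      have hrpos : 0 < r := by
        rw [hr]
        refine lt_min ?_ ?_
        · have := hact s2 hs20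
          omega
        · have h1 : (0 : ℝ) < ⌊η * 2 ^ (s2 + κ.length)⌋₊ := lt_of_le_of_lt (by positivity) hfl
          exact_mod_cast h1
      have ham0 : am qU qW qV κ s2 ≠ 0 := by omega
      have hel : e qU qW qV κ l (s2 + 1) = 2 * (e qU qW qV κ 0 s2 + am qU qW qV κ s2) := by
        rw [e_succ _ _ _ _ _ _ (by omega), if_neg ham0, if_pos hlv'.symm]
      have hEl : E qU qW qV κ 0 s2 + (r : ℝ) / 2 ^ s2 ≤ E qU qW qV κ l (s2 + 1) := by
        unfold E
        rw [hel, pow_succ, ← add_div, div_le_div_iff₀ hp (by positivity)]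
        push_cast
        have : (r : ℝ) ≤ (am qU qW qV κ s2 : ℝ) := by exact_mod_cast ham
        nlinarith
      obtain ⟨s3, hs3, hlv3⟩ := ih (s2 + 1)
      have hs30 : s0 ≤ s3 := by omega
      refine ⟨s3, by omega, ?_⟩
      have h1 : E qU qW qV κ 0 s3 = E qU qW qV κ l s3 := by
        unfold E
        rw [lv_eq qU qW qV κ l s3 hlv3 (by omega)]
      have h2 : E qU qW qV κ l (s2 + 1) ≤ E qU qW qV κ l s3 := E_mono qU qW qV κ l (by omega) hs3
      have h3 : E qU qW qV κ 0 s3 < E qU qW qV κ (l + 1) s3 := by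
        unfold E
        have := hact s3 hs30
        gcongr
      have h4 : E qU qW qV κ 0 s ≤ E qU qW qV κ 0 s2 := E_mono qU qW qV κ 0 (Nat.zero_le _) hs2
      rcases min_choice (e qU qW qV κ (l + 1) s2 - e qU qW qV κ 0 s2)
        ⌊η * 2 ^ (s2 + κ.length)⌋₊ with hm | hm
      · exfalso
        rw [hm] at hr
        have h5 : E qU qW qV κ 0 s2 + (r : ℝ) / 2 ^ s2 = E qU qW qV κ (l + 1) s2 := by
          unfold E
          rw [hr, Nat.cast_sub (hact s2 hs20).le]
          field_simp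
          ring
        rw [h5, hE s2 hs20] at hEl
        rw [hE s3 hs30] at h3
        linarith
      · rw [hm] at hr
        have h5 : δ ≤ (r : ℝ) / 2 ^ s2 := by
          rw [le_div_iff₀ hp, hr]
          exact hfl.le
        linarith
    have hiter : ∀ m : ℕ, ∃ s, max s1 (max s0 (n + encode t + 1)) ≤ s ∧
        m * δ ≤ E qU qW qV κ 0 s := by
      intro m
      induction m with
      | zero => exact ⟨_, le_rfl, by rw [Nat.cast_zero, zero_mul]; exact E_nonneg _ _ _ _ _ _⟩
      | succ m ihm =>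
        obtain ⟨s, hs, hs'⟩ := ihm
        obtain ⟨s', h1, h2⟩ := hstep s hs
        refine ⟨s', hs.trans h1, ?_⟩
        push_cast
        linarith
    obtain ⟨m, hm⟩ := exists_nat_gt (1 / δ)
    obtain ⟨s, _, hs⟩ := hiter m
    have h1 := E_le_one qU qW qV κ 0 s (Nat.zero_le _)
    rw [div_lt_iff₀ hδ0] at hm
    linarith

end prog

/-- the graph of a partial computable function is recursively enumerable -/
theorem graph_re {U : Str →. Str} (hU : Partrec U) : REPred fun x : Str × Str => x.2 ∈ U x.1 := by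
  have h1 : Partrec fun x : Str × Str => (U x.1).bind fun y =>
      ((if y = x.2 then some () else none : Option Unit) : Part Unit) := by
    refine Partrec.bind (hU.comp Computable.fst) ?_
    refine Computable.ofOption ?_
    refine (Primrec.ite ?_ (Primrec.const _) (Primrec.const _)).to_comp
    exact Primrec.eq.comp Primrec.snd (Primrec.snd.comp Primrec.fst)
  refine (Partrec.dom_re h1).of_eq fun x => ?_
  rw [Part.dom_iff_mem]
  constructor
  · rintro ⟨_, hy⟩
    rw [Part.mem_bind_iff] at hy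
    obtain ⟨z, hz, hz'⟩ := hy
    by_cases h : z = x.2
    · rw [← h]; exact hz
    · rw [if_neg h] at hz'
      simp at hz'
  · intro h
    refine ⟨(), ?_⟩
    rw [Part.mem_bind_iff]
    refine ⟨x.2, h, ?_⟩
    rw [if_pos rfl]
    simp

/-- The main theorem, for machines that simulate every prefix-free machine. -/
theorem main {U : Str →. Str} (hU : PFMachine U)
    (hsim : ∀ N : Str →. Str, PFMachine N → ∃ σ : Str, ∀ p, U (σ ++ p) = N p)
    {X : Set Str} (hX : REPred fun x => x ∉ X) (hpos : X.Nonempty) :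
    MLRandomReal (Omega U X) := by
  intro V hV
  by_contra hcon
  push Not at hcon
  obtain ⟨x0, hx0⟩ := hpos
  obtain ⟨qU, hqU, hqUm, hqUe⟩ := S1.of_re (graph_re hU.1)
  obtain ⟨qW, hqW, hqWm, hqWe⟩ := S1.of_re hX
  obtain ⟨qV, hqV, hqVm, hqVe⟩ := S1.of_re hV.1
  obtain ⟨σ, hσ⟩ := hsim _ (mach_pf qU qW qV x0 hqU hqW hqV)
  obtain ⟨κ, hκ⟩ : ∃ κ, κ = kap (encode σ) := ⟨_, rfl⟩
  have hκ' : κ = σ ++ ((List.range (encode σ)).map (fun _ => false) ++ [true]) := by
    rw [hκ]; unfold kap; simp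
  have hown : ∀ q : Str, U (κ ++ q) =
      (if ownD qU qW qV κ q then some x0 else none : Option Str) := by
    intro q
    rw [hκ', List.append_assoc, hσ, List.append_assoc, mach_own, ← hκ, ← hκ']
  have hlim := tendsto_nu (qV := qV) (κ := κ) (x0 := x0) U X hU.2 hqUm
    (fun p x => hqUe (p, x)) hqWm hqWe hx0 hown
  obtain ⟨S, _, hS⟩ := progress hlim hcon hqVm (fun c t ht => (hqVe (c, t)).1 ht) (TT κ) le_rfl 0
  have h1 := E_bound qU qW qV κ V hV.2 (fun c t s h => (hqVe (c, t)).2 ⟨s, h⟩) hqUm hqWm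
    {p | (U p).Dom} (fun p hp q hq => hU.2 p q hp hq)
    (fun p x n h => Part.dom_iff_mem.2 ⟨x, (hqUe (p, x)).2 ⟨n, h⟩⟩) S
  have h2 : E qU qW qV κ 0 S = 1 := by
    unfold E
    rw [← lv_eq qU qW qV κ (TT κ) S hS le_rfl, e_TT]
    push_cast
    exact div_self (by positivity)
  rw [h2] at h1
  norm_num at h1

end Pool.Agent.P8H89.Om
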