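import Mathlib
import Pool.Agent.H561R3.Om.Defs
import Pool.Agent.TH676.CK.Exist

set_option autoImplicit false

/-! Sanity check: there are machines that are universal by adjunction. -/

namespace Pool.Agent.P8H89.Om

open Pool.Agent.H561R3.Om Pool.Agent.TH676.CK
open Pool.Agent.Helper981.KP (una una_pf primrec_una)
open Nat.Partrec (Code)
open Nat.Partrec.Code (eval evaln)

theorem Wf_eq {N : List Bool →. List Bool} (hN : PFMachine N) :
    ∃ e : ℕ, ∀ p, Wf e [] p = N p := by
  have hN' : CondPFree (fun p _ => N p) :=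
    ⟨hN.1.comp Computable.fst, fun _ p q hp hq h => hN.2 p q hp hq h⟩
  have hV' : Partrec (fun x : List Bool × List Bool => N x.1) := hN'.1
  obtain ⟨c, hc⟩ := Nat.Partrec.Code.exists_code.1 hV'
  have hev : ∀ p y : List Bool, eval c (Encodable.encode (p, y)) =
      (N p).map Encodable.encode := by
    intro p y
    rw [hc]
    simp only [Encodable.encodek, Part.coe_some, Part.bind_some]
  refine ⟨Encodable.encode c, fun p => Part.ext fun x => ⟨?_, ?_⟩⟩
  · intro hx
    unfold Wf at hx
    rw [Part.mem_bind_iff] at hx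
    obtain ⟨n, _, hx⟩ := hx
    by_cases hg : good (Encodable.encode c) [] p n
    · rw [if_pos hg] at hx
      rw [Part.mem_ofOption, Option.mem_def, Option.bind_eq_some_iff] at hx
      obtain ⟨v, hv, hv'⟩ := hx
      rw [Denumerable.ofNat_encode] at hv
      have h3 := Nat.Partrec.Code.evaln_sound (Option.mem_def.2 hv)
      rw [hev, Part.mem_map_iff] at h3
      obtain ⟨z, hz, rfl⟩ := h3
      rw [Encodable.encodek, Option.some_inj] at hv'
      rw [← hv']; exact hz
    · rw [if_neg hg] at hx
      simp at hx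
  · intro hx
    exact Wf_mem hN' hev hx

theorem exists_universalByAdjunction : ∃ U : List Bool →. List Bool, UniversalByAdjunction U := by
  have hpart : Partrec fun x : ℕ × List Bool => Wf x.1 [] x.2 := by
    have h : Partrec fun x : ℕ × List Bool => Wu (una x.1 ++ x.2) [] :=
      Wu_partrec.comp ((Primrec.list_append.comp (primrec_una.comp Primrec.fst)
        Primrec.snd).to_comp) (Computable.const [])
    exact h.of_eq fun x => Wu_una _ _ _
  refine ⟨fun P => Wu P [], ⟨?_, ?_⟩, fun e p => Wf e [] p, una, hpart, ?_, ?_, ?_, ?_, ?_⟩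
  · exact Wu_partrec.comp Computable.id (Computable.const [])
  · intro P Q hP hQ h
    obtain ⟨h1, h2⟩ := Wu_dom hP
    obtain ⟨h3, h4⟩ := Wu_dom hQ
    rw [h1, h3] at h
    obtain ⟨h5, h6⟩ := una_append_pf h
    rw [h5] at h2
    have h7 := Wf_pf h2 h4 h6
    rw [h1, h3, h5, h7]
  · intro e
    refine ⟨hpart.comp ((Computable.const e).pair Computable.id), ?_⟩
    intro p q hp hq h
    exact Wf_pf hp hq h
  · intro N hN
    obtain ⟨e, he⟩ := Wf_eq hN
    exact ⟨e, funext he⟩
  · exact primrec_una.to_comp
  · intro d e h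
    exact una_pf h
  · intro e p
    exact Wu_una e p []

end Pool.Agent.P8H89.Om
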